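import Mathlib
import Pool.Agent.R528.RM.TupQ

set_option autoImplicit false
set_option linter.unusedSectionVars false

/-! # The singular series: truncation, uniformly in the tuple -/

open Filter Set
open scoped Topology

namespace Pool.Agent.N732.GS

open Pool.Agent.R528.RM

/-- the local factor -/
noncomputable def lfac (H : Finset ℕ) (p : ℕ) : ℝ := (1 - (occ H p : ℝ) / p) / (1 - 1 / (p : ℝ)) ^ H.card

/-- the singular series -/
noncomputable def sing (H : Finset ℕ) : ℝ := ∏' p : Nat.Primes, lfac H p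

lemma occ_le_card (H : Finset ℕ) (p : ℕ) : occ H p ≤ H.card := Finset.card_image_le

lemma occ_le (H : Finset ℕ) {p : ℕ} (hp : 0 < p) : occ H p ≤ p := by
  unfold occ
  have h1 : H.image (· % p) ⊆ Finset.range p := by
    intro r hr
    obtain ⟨h, _, rfl⟩ := Finset.mem_image.1 hr
    exact Finset.mem_range.2 (Nat.mod_lt _ hp)
  have h2 := Finset.card_le_card h1
  rwa [Finset.card_range] at h2

lemma one_sub_pow_le (k : ℕ) {x : ℝ} (h0 : 0 ≤ x) (h1 : x ≤ 1) : (1 - x) ^ k ≤ 1 - k * x + k ^ 2 * x ^ 2 := by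
  induction k with
  | zero => simp
  | succ k ih =>
    have h2 : (1 - x) ^ (k + 1) ≤ (1 - x) * (1 - k * x + k ^ 2 * x ^ 2) := by
      rw [pow_succ, mul_comm]
      exact mul_le_mul_of_nonneg_left ih (by linarith)
    refine h2.trans ?_
    push_cast
    have hk : (0 : ℝ) ≤ k := Nat.cast_nonneg k
    have e : (1 : ℝ) - (k + 1) * x + (k + 1) ^ 2 * x ^ 2 - (1 - x) * (1 - k * x + k ^ 2 * x ^ 2) =
      (k + 1) * x ^ 2 + k ^ 2 * x ^ 3 := by ring
    have : 0 ≤ ((k : ℝ) + 1) * x ^ 2 + k ^ 2 * x ^ 3 := by positivity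
    linarith

lemma den_pos {p : ℕ} (hp : p.Prime) (k : ℕ) : 0 < (1 - 1 / (p : ℝ)) ^ k := by
  have hp2 : (2 : ℝ) ≤ p := by exact_mod_cast hp.two_le
  have : 1 / (p : ℝ) ≤ 1 / 2 := one_div_le_one_div_of_le (by norm_num) hp2
  have : 0 < 1 - 1 / (p : ℝ) := by linarith
  positivity

lemma den_le_one {p : ℕ} (hp : p.Prime) (k : ℕ) : (1 - 1 / (p : ℝ)) ^ k ≤ 1 := by
  have hp2 : (2 : ℝ) ≤ p := by exact_mod_cast hp.two_le
  have : 1 / (p : ℝ) ≤ 1 / 2 := one_div_le_one_div_of_le (by norm_num) hp2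
  have h3 : 0 ≤ 1 / (p : ℝ) := by positivity
  exact pow_le_one₀ (by linarith) (by linarith)

lemma lfac_nonneg (H : Finset ℕ) {p : ℕ} (hp : p.Prime) : 0 ≤ lfac H p := by
  unfold lfac
  have h1 : (occ H p : ℝ) / p ≤ 1 := by
    rw [div_le_one (by exact_mod_cast hp.pos)]
    exact_mod_cast occ_le H hp.pos
  exact div_nonneg (by linarith) (den_pos hp _).le

/-- a nonzero factor is at least `1/p` -/
lemma lfac_ge (H : Finset ℕ) {p : ℕ} (hp : p.Prime) (h : lfac H p ≠ 0) : 1 / (p : ℝ) ≤ lfac H p := by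
  have hp0 : (0 : ℝ) < p := by exact_mod_cast hp.pos
  have h1 : occ H p ≠ p := by
    intro h2
    apply h
    unfold lfac
    rw [h2, div_self hp0.ne', sub_self, zero_div]
  have h2 : occ H p + 1 ≤ p := by
    have := occ_le H hp.pos
    omega
  have h3 : (occ H p : ℝ) + 1 ≤ p := by exact_mod_cast h2
  unfold lfac
  rw [le_div_iff₀ (den_pos hp _)]
  have h4 : 1 / (p : ℝ) ≤ 1 - (occ H p : ℝ) / p := by
    rw [le_sub_iff_add_le, ← add_div, div_le_one hp0]
    linarith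
  have h5 : 0 ≤ 1 / (p : ℝ) := by positivity
  calc 1 / (p : ℝ) * (1 - 1 / (p : ℝ)) ^ H.card ≤ 1 / (p : ℝ) * 1 := mul_le_mul_of_nonneg_left (den_le_one hp _) h5
    _ ≤ _ := by linarith

/-- lower bound for large primes -/
lemma lfac_lower (H : Finset ℕ) {p : ℕ} (hp : p.Prime) (hk : 2 * H.card ≤ p) :
    1 - 2 * (H.card : ℝ) ^ 2 * ((p : ℝ) ^ 2)⁻¹ ≤ lfac H p := by
  have hp0 : (0 : ℝ) < p := by exact_mod_cast hp.pos
  have hk' : 2 * (H.card : ℝ) ≤ p := by exact_mod_cast hk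
  set k : ℝ := (H.card : ℝ) with hkd
  have hk0 : 0 ≤ k := Nat.cast_nonneg _
  set x : ℝ := 1 / (p : ℝ) with hx
  have hx0 : 0 ≤ x := by positivity
  have hx1 : x ≤ 1 := by
    rw [hx, div_le_one hp0]
    exact_mod_cast hp.one_lt.le
  have hkx : k * x ≤ 1 / 2 := by
    rw [hx, mul_one_div, div_le_div_iff₀ hp0 (by norm_num)]
    linarith
  have h1 := one_sub_pow_le H.card hx0 hx1
  rw [← hkd] at h1
  have h2 : (1 - 2 * k ^ 2 * x ^ 2) * (1 - k * x + k ^ 2 * x ^ 2) ≤ 1 - k * x := by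
    have e : 1 - k * x - (1 - 2 * k ^ 2 * x ^ 2) * (1 - k * x + k ^ 2 * x ^ 2) =
      (k ^ 2 * x ^ 2) * (1 - 2 * (k * x) + 2 * (k * x) ^ 2) := by ring
    have : 0 ≤ (k ^ 2 * x ^ 2) * (1 - 2 * (k * x) + 2 * (k * x) ^ 2) := by
      apply mul_nonneg (by positivity)
      nlinarith [sq_nonneg (k * x)]
    linarith
  have h3 : 0 ≤ 1 - 2 * k ^ 2 * x ^ 2 := by
    have : (k * x) ^ 2 ≤ (1 / 2) ^ 2 := pow_le_pow_left₀ (by positivity) hkx 2
    nlinarith
  have h4 : (p : ℝ) ^ 2 ≠ 0 := by positivity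
  have h5 : ((p : ℝ) ^ 2)⁻¹ = x ^ 2 := by rw [hx]; field_simp
  rw [h5]
  unfold lfac
  rw [le_div_iff₀ (den_pos hp _)]
  have h6 : (occ H p : ℝ) / p ≤ k * x := by
    rw [hx, mul_one_div]
    apply div_le_div_of_nonneg_right _ hp0.le
    rw [hkd]
    exact_mod_cast occ_le_card H p
  calc (1 - 2 * k ^ 2 * x ^ 2) * (1 - x) ^ H.card ≤ (1 - 2 * k ^ 2 * x ^ 2) * (1 - k * x + k ^ 2 * x ^ 2) :=
        mul_le_mul_of_nonneg_left h1 h3
    _ ≤ 1 - k * x := h2
    _ ≤ _ := by linarith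

/-- upper bound for large primes -/
lemma lfac_upper (H : Finset ℕ) {p : ℕ} (hp : p.Prime) (hk : 2 * H.card ≤ p) :
    lfac H p ≤ 1 + 2 * (H.card : ℝ) * (p : ℝ)⁻¹ := by
  have hp0 : (0 : ℝ) < p := by exact_mod_cast hp.pos
  have hk' : 2 * (H.card : ℝ) ≤ p := by exact_mod_cast hk
  set k : ℝ := (H.card : ℝ) with hkd
  have hk0 : 0 ≤ k := Nat.cast_nonneg _
  have hx0 : 0 ≤ (p : ℝ)⁻¹ := by positivity
  have hkx : k * (p : ℝ)⁻¹ ≤ 1 / 2 := by
    rw [← div_eq_mul_inv, div_le_div_iff₀ hp0 (by norm_num)]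
    linarith
  have hx1 : (p : ℝ)⁻¹ ≤ 1 := inv_le_one_of_one_le₀ (by exact_mod_cast hp.one_lt.le)
  have h1 := one_add_mul_le_pow (show (-2 : ℝ) ≤ -(p : ℝ)⁻¹ by linarith) H.card
  rw [← hkd] at h1
  have hden := den_pos hp H.card
  unfold lfac
  rw [one_div] at *
  rw [div_le_iff₀ hden]
  have h6 : 0 ≤ (occ H p : ℝ) / p := by positivity
  have h7 : 1 - k * (p : ℝ)⁻¹ ≤ (1 - (p : ℝ)⁻¹) ^ H.card := by
    rw [show (1 : ℝ) - (p : ℝ)⁻¹ = 1 + -(p : ℝ)⁻¹ by ring]
    linarith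
  calc 1 - (occ H p : ℝ) / p ≤ 1 := by linarith
    _ ≤ (1 + 2 * k * (p : ℝ)⁻¹) * (1 - k * (p : ℝ)⁻¹) := by
      have : 0 ≤ k * (p : ℝ)⁻¹ := by positivity
      nlinarith
    _ ≤ _ := mul_le_mul_of_nonneg_left h7 (by positivity)

/-- away from the differences -/
lemma lfac_le_one (H : Finset ℕ) {p : ℕ} (hp : p.Prime) (h : occ H p = H.card) :
    lfac H p ≤ 1 := by
  have hp0 : (0 : ℝ) < p := by exact_mod_cast hp.pos
  unfold lfac
  rw [div_le_one (den_pos hp _), h]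
  have hx1 : 1 / (p : ℝ) ≤ 1 := by
    rw [div_le_one hp0]
    exact_mod_cast hp.one_lt.le
  have h1 := one_add_mul_le_pow (show (-2 : ℝ) ≤ -(1 / (p : ℝ)) by linarith) H.card
  rw [show (1 : ℝ) - 1 / (p : ℝ) = 1 + -(1 / (p : ℝ)) by ring]
  calc 1 - (H.card : ℝ) / p = 1 + (H.card : ℝ) * -(1 / (p : ℝ)) := by ring
    _ ≤ _ := h1

/-- the primes dividing a difference -/
def bad (H : Finset ℕ) : Finset ℕ := (H ×ˢ H).biUnion fun ab => (ab.2 - ab.1).primeFactors

lemma occ_eq_of_not_bad (H : Finset ℕ) {p : ℕ} (hp : p.Prime) (h : p ∉ bad H) : occ H p = H.card := by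
  unfold occ
  apply Finset.card_image_of_injOn
  intro a ha b hb hab
  have ha' := Finset.mem_coe.1 ha
  have hb' := Finset.mem_coe.1 hb
  simp only at hab
  by_contra hne
  apply h
  unfold bad
  rw [Finset.mem_biUnion]
  rcases lt_or_gt_of_ne hne with hlt | hlt
  · refine ⟨(a, b), Finset.mem_product.2 ⟨ha', hb'⟩, ?_⟩
    rw [Nat.mem_primeFactors]
    refine ⟨hp, ?_, by simp only; omega⟩
    exact (Nat.modEq_iff_dvd' hlt.le).1 hab
  · refine ⟨(b, a), Finset.mem_product.2 ⟨hb', ha'⟩, ?_⟩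
    rw [Nat.mem_primeFactors]
    refine ⟨hp, ?_, by simp only; omega⟩
    exact (Nat.modEq_iff_dvd' hlt.le).1 hab.symm

lemma card_primeFactors_le (n : ℕ) : n.primeFactors.card ≤ Nat.log 2 n := by
  rcases Nat.eq_zero_or_pos n with h | h
  · subst h; simp
  · apply Nat.le_log_of_pow_le (by norm_num)
    calc 2 ^ n.primeFactors.card ≤ ∏ p ∈ n.primeFactors, p :=
          Finset.pow_card_le_prod _ _ _ fun p hp => (Nat.prime_of_mem_primeFactors hp).two_le
      _ ≤ n := Nat.le_of_dvd h (Nat.prod_primeFactors_dvd n)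

lemma bad_card (H : Finset ℕ) {L : ℕ} (hH : H ⊆ Finset.range (L + 1)) : (bad H).card ≤ H.card ^ 2 * Nat.log 2 L := by
  unfold bad
  refine Finset.card_biUnion_le.trans ?_
  calc ∑ ab ∈ H ×ˢ H, ((ab.2 - ab.1).primeFactors).card ≤ ∑ ab ∈ H ×ˢ H, Nat.log 2 L := by
        refine Finset.sum_le_sum fun ab hab => (card_primeFactors_le _).trans (Nat.log_mono_right ?_)
        have h1 := Finset.mem_range.1 (hH (Finset.mem_product.1 hab).2)
        omega
    _ = _ := by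
      rw [Finset.sum_const, Finset.card_product, smul_eq_mul, sq]

lemma prod_one_sub_ge {ι : Type*} [DecidableEq ι] (s : Finset ι) (a : ι → ℝ) (h0 : ∀ i ∈ s, 0 ≤ a i) (h1 : ∑ i ∈ s, a i ≤ 1) :
    1 - ∑ i ∈ s, a i ≤ ∏ i ∈ s, (1 - a i) := by
  induction s using Finset.induction_on with
  | empty => simp
  | insert i s hi ih =>
    rw [Finset.sum_insert hi] at h1 ⊢
    rw [Finset.prod_insert hi]
    have h2 : 0 ≤ a i := h0 i (Finset.mem_insert_self _ _)
    have h3 : ∀ j ∈ s, 0 ≤ a j := fun j hj => h0 j (Finset.mem_insert_of_mem hj)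
    have h4 : 0 ≤ ∑ j ∈ s, a j := Finset.sum_nonneg h3
    have h5 := ih h3 (by linarith)
    have h6 : (1 - a i) * (1 - ∑ j ∈ s, a j) ≤ (1 - a i) * ∏ j ∈ s, (1 - a j) :=
      mul_le_mul_of_nonneg_left h5 (by linarith)
    have h7 : 0 ≤ a i * ∑ j ∈ s, a j := mul_nonneg h2 h4
    nlinarith

/-- the factors at the primes above `y` -/
lemma tail_bounds (H : Finset ℕ) {y : ℕ} (hy : 2 * H.card ≤ y) (hy2 : 2 * H.card ^ 2 ≤ y) (hy1 : 1 ≤ y) (R : Finset ℕ)
    (hR : ∀ p ∈ R, p.Prime) (hRy : ∀ p ∈ R, y < p) :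
    1 - 2 * (H.card : ℝ) ^ 2 / y ≤ ∏ p ∈ R, lfac H p ∧
      ∏ p ∈ R, lfac H p ≤ Real.exp (2 * H.card / y * (bad H).card) := by
  classical
  have hy0 : (0 : ℝ) < y := by exact_mod_cast hy1
  constructor
  · have hs : ∑ p ∈ R, 2 * (H.card : ℝ) ^ 2 * ((p : ℝ) ^ 2)⁻¹ ≤ 2 * (H.card : ℝ) ^ 2 / y := by
      rw [← Finset.mul_sum, div_eq_mul_inv]
      apply mul_le_mul_of_nonneg_left _ (by positivity)
      have h1 : R ⊆ Finset.Ioc y (max y (R.sup id)) := by
        intro p hp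
        rw [Finset.mem_Ioc]
        exact ⟨hRy p hp, le_max_of_le_right (Finset.le_sup (f := id) hp)⟩
      calc ∑ p ∈ R, ((p : ℝ) ^ 2)⁻¹ ≤ ∑ p ∈ Finset.Ioc y (max y (R.sup id)), ((p : ℝ) ^ 2)⁻¹ :=
            Finset.sum_le_sum_of_subset_of_nonneg h1 fun _ _ _ => by positivity
        _ ≤ (y : ℝ)⁻¹ - ((max y (R.sup id) : ℕ) : ℝ)⁻¹ := sum_Ioc_inv_sq_le_sub (by omega) (le_max_left _ _)
        _ ≤ (y : ℝ)⁻¹ := by
          have : 0 ≤ ((max y (R.sup id) : ℕ) : ℝ)⁻¹ := by positivity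
          linarith
    have hs1 : ∑ p ∈ R, 2 * (H.card : ℝ) ^ 2 * ((p : ℝ) ^ 2)⁻¹ ≤ 1 := by
      refine hs.trans ?_
      rw [div_le_one hy0]
      exact_mod_cast hy2
    have h2 := prod_one_sub_ge R (fun p => 2 * (H.card : ℝ) ^ 2 * ((p : ℝ) ^ 2)⁻¹) (fun _ _ => by positivity) hs1
    have h3 : ∏ p ∈ R, (1 - 2 * (H.card : ℝ) ^ 2 * ((p : ℝ) ^ 2)⁻¹) ≤ ∏ p ∈ R, lfac H p := by
      apply Finset.prod_le_prod
      · intro p hp
        have h4 := Finset.single_le_sum (f := fun p : ℕ => 2 * (H.card : ℝ) ^ 2 * ((p : ℝ) ^ 2)⁻¹) (fun _ _ => by positivity) hp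
        linarith
      · intro p hp
        exact lfac_lower H (hR p hp) (hy.trans (hRy p hp).le)
    linarith
  · calc ∏ p ∈ R, lfac H p ≤ ∏ p ∈ R, (if p ∈ bad H then 1 + 2 * (H.card : ℝ) / y else 1) := by
          apply Finset.prod_le_prod (fun p hp => lfac_nonneg H (hR p hp))
          intro p hp
          split_ifs with h
          · refine (lfac_upper H (hR p hp) (hy.trans (hRy p hp).le)).trans ?_
            rw [div_eq_mul_inv]
            have : (p : ℝ)⁻¹ ≤ (y : ℝ)⁻¹ := inv_anti₀ hy0 (by exact_mod_cast (hRy p hp).le)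
            have := mul_le_mul_of_nonneg_left this (show 0 ≤ 2 * (H.card : ℝ) by positivity)
            linarith
          · exact lfac_le_one H (hR p hp) (occ_eq_of_not_bad H (hR p hp) h)
      _ = (1 + 2 * (H.card : ℝ) / y) ^ (R.filter (· ∈ bad H)).card := by
          rw [← Finset.prod_filter, Finset.prod_const]
      _ ≤ (1 + 2 * (H.card : ℝ) / y) ^ (bad H).card := by
          apply pow_le_pow_right₀
          · have : 0 ≤ 2 * (H.card : ℝ) / y := by positivity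
            linarith
          · exact Finset.card_le_card fun p hp => (Finset.mem_filter.1 hp).2
      _ ≤ (Real.exp (2 * (H.card : ℝ) / y)) ^ (bad H).card := by
          apply pow_le_pow_left₀ (by positivity)
          have := Real.add_one_le_exp (2 * (H.card : ℝ) / y)
          linarith
      _ = _ := by
          rw [← Real.exp_nat_mul]
          congr 1
          ring

lemma lfac_multipliable (H : Finset ℕ) : Multipliable (fun p : Nat.Primes => lfac H p) := by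
  have h1 : (fun p : Nat.Primes => lfac H p) = fun p : Nat.Primes => 1 + (lfac H p - 1) := by
    funext p; ring
  rw [h1]
  apply multipliable_one_add_of_summable
  have hs : Summable (fun p : Nat.Primes => 2 * (H.card : ℝ) ^ 2 * (((p : ℕ) : ℝ) ^ 2)⁻¹) := by
    apply Summable.mul_left
    have h2 : Summable (fun n : ℕ => ((n : ℝ) ^ 2)⁻¹) := Real.summable_nat_pow_inv.2 (by norm_num)
    exact h2.comp_injective Nat.Primes.coe_nat_injective
  refine Summable.of_norm_bounded_eventually hs ?_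
  have hfin : {p : Nat.Primes | ¬ (2 * H.card ≤ (p : ℕ) ∧ (p : ℕ) ∉ bad H)}.Finite := by
    have h3 : Set.Finite ((Finset.range (2 * H.card) ∪ bad H : Finset ℕ) : Set ℕ) := Finset.finite_toSet _
    refine (h3.preimage (f := fun p : Nat.Primes => (p : ℕ)) Nat.Primes.coe_nat_injective.injOn).subset ?_
    intro p hp
    simp only [Set.mem_ofPred_eq, not_and_or, not_le, not_not] at hp
    simp only [Set.mem_preimage, Finset.coe_union, Set.mem_union, Finset.mem_coe, Finset.mem_range]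
    exact hp
  filter_upwards [hfin.compl_mem_cofinite] with p hp
  simp only [Set.mem_compl_iff, Set.mem_ofPred_eq, not_not] at hp
  have h4 := lfac_lower H p.2 hp.1
  have h5 := lfac_le_one H p.2 (occ_eq_of_not_bad H p.2 hp.2)
  rw [norm_norm, Real.norm_eq_abs, abs_le]
  have : 0 ≤ 2 * (H.card : ℝ) ^ 2 * (((p : ℕ) : ℝ) ^ 2)⁻¹ := by positivity
  constructor <;> linarith

/-- truncation of the singular series -/
lemma sing_bounds (H : Finset ℕ) {y : ℕ} (hy : 2 * H.card ≤ y) (hy2 : 2 * H.card ^ 2 ≤ y) (hy1 : 1 ≤ y) (P : Finset ℕ)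
    (hP : ∀ p ∈ P, p.Prime) (hPy : ∀ p : ℕ, p.Prime → p ≤ y → p ∈ P) :
    (1 - 2 * (H.card : ℝ) ^ 2 / y) * singH P H ≤ sing H ∧
      sing H ≤ Real.exp (2 * H.card / y * (bad H).card) * singH P H := by
  classical
  have hprod := (lfac_multipliable H).hasProd
  have hev : ∀ᶠ s : Finset Nat.Primes in atTop, (1 - 2 * (H.card : ℝ) ^ 2 / y) * singH P H ≤ ∏ p ∈ s, lfac H p ∧
      ∏ p ∈ s, lfac H p ≤ Real.exp (2 * H.card / y * (bad H).card) * singH P H := by
    filter_upwards [eventually_ge_atTop (P.subtype Nat.Prime)] with s hs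
    set Q : Finset ℕ := s.map ⟨fun p : Nat.Primes => (p : ℕ), Nat.Primes.coe_nat_injective⟩ with hQ
    have e1 : ∏ p ∈ s, lfac H p = ∏ p ∈ Q, lfac H p := by
      rw [hQ, Finset.prod_map]
      rfl
    have hPQ : P ⊆ Q := by
      intro p hp
      rw [hQ, Finset.mem_map]
      exact ⟨⟨p, hP p hp⟩, hs (by rw [Finset.mem_subtype]; exact hp), rfl⟩
    have hQp : ∀ p ∈ Q, p.Prime := by
      intro p hp
      rw [hQ, Finset.mem_map] at hp
      obtain ⟨q, _, rfl⟩ := hp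
      exact q.2
    have e2 : ∏ p ∈ Q, lfac H p = (∏ p ∈ Q \ P, lfac H p) * singH P H := by
      rw [← Finset.prod_sdiff hPQ]
      rfl
    have h0 : 0 ≤ singH P H := Finset.prod_nonneg fun p hp => lfac_nonneg H (hP p hp)
    have h1 := tail_bounds H hy hy2 hy1 (Q \ P) (fun p hp => hQp p (Finset.mem_sdiff.1 hp).1) (fun p hp => by
      by_contra hcon
      exact (Finset.mem_sdiff.1 hp).2 (hPy p (hQp p (Finset.mem_sdiff.1 hp).1) (not_lt.1 hcon)))
    rw [e1, e2]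
    exact ⟨mul_le_mul_of_nonneg_right h1.1 h0, mul_le_mul_of_nonneg_right h1.2 h0⟩
  exact ⟨ge_of_tendsto hprod (hev.mono fun _ h => h.1), le_of_tendsto hprod (hev.mono fun _ h => h.2)⟩

lemma singH_nonneg (H P : Finset ℕ) (hP : ∀ p ∈ P, p.Prime) : 0 ≤ singH P H :=
  Finset.prod_nonneg fun p hp => lfac_nonneg H (hP p hp)

/-- a nonzero singular series is bounded below -/
lemma sing_lower (k : ℕ) : ∃ c : ℝ, 0 < c ∧ ∀ H : Finset ℕ, H.card = k → sing H ≠ 0 → c ≤ sing H := by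
  classical
  set y : ℕ := 4 * k ^ 2 + 2 * k + 1 with hy
  set P : Finset ℕ := (Finset.range (y + 1)).filter Nat.Prime with hPdef
  have hP : ∀ p ∈ P, p.Prime := fun p hp => (Finset.mem_filter.1 hp).2
  have hPy : ∀ p : ℕ, p.Prime → p ≤ y → p ∈ P := fun p hp hpy =>
    Finset.mem_filter.2 ⟨Finset.mem_range.2 (by omega), hp⟩
  have hc : 0 < ∏ p ∈ P, 1 / (p : ℝ) := Finset.prod_pos fun p hp => by
    have : (0 : ℝ) < p := by exact_mod_cast (hP p hp).pos
    positivity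
  refine ⟨1 / 2 * ∏ p ∈ P, 1 / (p : ℝ), by positivity, fun H hH hne => ?_⟩
  have h1 := sing_bounds H (y := y) (by rw [hH]; omega) (by rw [hH, hy]; nlinarith) (by omega) P hP hPy
  rw [hH] at h1
  have h2 : singH P H ≠ 0 := by
    intro h
    rw [h, mul_zero, mul_zero] at h1
    exact hne (le_antisymm h1.2 h1.1)
  have h3 : ∏ p ∈ P, 1 / (p : ℝ) ≤ singH P H := by
    apply Finset.prod_le_prod (fun p _ => by positivity)
    intro p hp
    exact lfac_ge H (hP p hp) (Finset.prod_ne_zero_iff.1 h2 p hp)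
  have h4 : (1 : ℝ) / 2 ≤ 1 - 2 * (k : ℝ) ^ 2 / y := by
    have hy0 : (0 : ℝ) < y := by rw [hy]; positivity
    rw [le_sub_iff_add_le, ← le_sub_iff_add_le', div_le_iff₀ hy0]
    have : (y : ℝ) = 4 * k ^ 2 + 2 * k + 1 := by rw [hy]; push_cast; ring
    rw [this]
    have : (0 : ℝ) ≤ k := Nat.cast_nonneg k
    nlinarith
  calc 1 / 2 * ∏ p ∈ P, 1 / (p : ℝ) ≤ (1 - 2 * (k : ℝ) ^ 2 / y) * singH P H :=
        mul_le_mul h4 h3 hc.le (by linarith)
    _ ≤ _ := h1.1

end Pool.Agent.N732.GS
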