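import Mathlib
import Pool.Agent.N732.GS.Sing

set_option autoImplicit false
set_option linter.unusedSectionVars false

/-! # The expected number of tuples in one dyadic block -/

open Filter Set
open scoped Topology

namespace Pool.Agent.N732.GS

open Pool.Agent.R528.RM

/-- the profile: sieving set `P j` in the dyadic block `[2^j, 2^(j+1))` -/
noncomputable def rhoG (P : ℕ → Finset ℕ) (m : ℕ) : ℝ := rhoW (∏ p ∈ P (Nat.log 2 m), p) m

lemma rhoG_01 (P : ℕ → Finset ℕ) (m : ℕ) : 0 ≤ rhoG P m ∧ rhoG P m ≤ 1 := ⟨rhoW_nonneg _ _, rhoW_le _ _⟩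

lemma good_Ico (H : Finset ℕ) {W : ℕ} (hW : 0 < W) {a b : ℕ} (hab : a ≤ b) :
    |∑ N ∈ Finset.Ico a b, (if good (PH H) W N then (1 : ℝ) else 0) - ((b : ℝ) - a) * ((Nat.count (good (PH H) W) W : ℝ) / W)| ≤ 2 * W := by
  classical
  have h1 : ∀ x : ℕ, ∑ N ∈ Finset.range x, (if good (PH H) W N then (1 : ℝ) else 0) = (Nat.count (good (PH H) W) x : ℝ) := by
    intro x
    rw [Finset.sum_boole, Nat.count_eq_card_filter_range]
  rw [Finset.sum_Ico_eq_sub _ hab, h1, h1]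
  have h2 := abs_le.1 (count_periodic (good (PH H) W) W hW (good_periodic (PH H) W) a)
  have h3 := abs_le.1 (count_periodic (good (PH H) W) W hW (good_periodic (PH H) W) b)
  rw [abs_le]
  constructor <;> linarith [h2.1, h2.2, h3.1, h3.2]

lemma unsafe_card (L M : ℕ) (a b : ℕ) (hb : b ≤ M) :
    ∑ N ∈ Finset.Ico a b, (if M ≤ N + L then (1 : ℝ) else 0) ≤ L := by
  rw [Finset.sum_boole]
  have h1 : (Finset.Ico a b).filter (fun N => M ≤ N + L) ⊆ Finset.Ico (M - L) M := by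
    intro N hN
    rw [Finset.mem_filter, Finset.mem_Ico] at hN
    rw [Finset.mem_Ico]
    omega
  have h2 := Finset.card_le_card h1
  rw [Nat.card_Ico] at h2
  have h3 : ((Finset.Ico a b).filter (fun N => M ≤ N + L)).card ≤ L := by omega
  exact_mod_cast h3

lemma rho_good (P : ℕ → Finset ℕ) (H : Finset ℕ) {L : ℕ} (hH : H ⊆ Finset.range (L + 1)) {j N : ℕ}
    (h1 : 2 ^ j ≤ N) (h2 : N + L < 2 ^ (j + 1)) :
    ∏ h ∈ H, rhoG P (N + h) = if good (PH H) (∏ p ∈ P j, p) N then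
      ∏ h ∈ H, bb (((∏ p ∈ P j, p : ℕ) : ℝ) / Nat.totient (∏ p ∈ P j, p)) (N + h) else 0 := by
  have hlog : ∀ h ∈ H, Nat.log 2 (N + h) = j := by
    intro h hh
    have := Finset.mem_range.1 (hH hh)
    rw [Nat.log_eq_iff (Or.inr ⟨by norm_num, by have := Nat.one_le_two_pow (n := j); omega⟩)]
    omega
  split_ifs with hg
  · rw [good_PH] at hg
    refine Finset.prod_congr rfl fun h hh => ?_
    unfold rhoG rhoW bb
    rw [hlog h hh, if_pos (hg h hh)]
  · rw [good_PH] at hg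
    push Not at hg
    obtain ⟨h, hh, hn⟩ := hg
    refine Finset.prod_eq_zero hh ?_
    unfold rhoG rhoW
    rw [hlog h hh, if_neg hn]

lemma block (P : ℕ → Finset ℕ) (hP : ∀ j, ∀ p ∈ P j, p.Prime) (H : Finset ℕ) {L : ℕ} (hH : H ⊆ Finset.range (L + 1))
    {j a b : ℕ} (hj : 1 ≤ j) (hab : a ≤ b) (ha : 2 ^ j ≤ a) (hb : b ≤ 2 ^ (j + 1)) :
    ∑ N ∈ Finset.Ico a b, ∏ h ∈ H, rhoG P (N + h) ≤
      L + 2 * ((∏ p ∈ P j, p : ℕ) : ℝ) + ((b : ℝ) - a) * (singH (P j) H / (j * Real.log 2) ^ H.card) ∧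
    (((∏ p ∈ P j, p : ℕ) : ℝ) / Nat.totient (∏ p ∈ P j, p) ≤ (j + 1) * Real.log 2 →
      ((b : ℝ) - a) * (singH (P j) H / ((j + 1) * Real.log 2) ^ H.card) - (L + 2 * ((∏ p ∈ P j, p : ℕ) : ℝ)) ≤
      ∑ N ∈ Finset.Ico a b, ∏ h ∈ H, rhoG P (N + h)) := by
  classical
  set W := ∏ p ∈ P j, p with hWd
  have hW : 0 < W := Finset.prod_pos fun q hq => (hP j q hq).pos
  set c := (W : ℝ) / Nat.totient W with hc
  have hcpos : 0 < c := div_pos (by exact_mod_cast hW) (by exact_mod_cast Nat.totient_pos.2 hW)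
  set k := H.card with hk
  set d := (Nat.count (good (PH H) W) W : ℝ) / W with hd
  have hd0 : 0 ≤ d := by positivity
  have hS : singH (P j) H = d * c ^ k := (singH_eq (P j) (hP j) H).symm
  have hl2 : 0 < Real.log 2 := Real.log_pos (by norm_num)
  have hj0 : (0 : ℝ) < j := by exact_mod_cast hj
  have hjl : 0 < j * Real.log 2 := by positivity
  have hgI := abs_le.1 (good_Ico H hW hab)
  rw [← hd] at hgI
  have hba : (0 : ℝ) ≤ (b : ℝ) - a := by
    have : (a : ℝ) ≤ b := by exact_mod_cast hab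
    linarith
  have hlogN : ∀ N : ℕ, 2 ^ j ≤ N → j * Real.log 2 ≤ Real.log (N : ℝ) := by
    intro N hN
    rw [← Real.log_pow]
    apply Real.log_le_log (by positivity)
    exact_mod_cast hN
  have hunsafe := unsafe_card L (2 ^ (j + 1)) a b hb
  have hL0 : (0 : ℝ) ≤ L := Nat.cast_nonneg L
  have hW0 : (0 : ℝ) ≤ W := Nat.cast_nonneg W
  constructor
  · set w : ℝ := min 1 ((c / (j * Real.log 2)) ^ k) with hw
    have hw0 : 0 ≤ w := le_min zero_le_one (by positivity)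
    have hw1 : w ≤ 1 := min_le_left _ _
    have hw2 : w ≤ (c / (j * Real.log 2)) ^ k := min_le_right _ _
    have hpt : ∀ N ∈ Finset.Ico a b, ∏ h ∈ H, rhoG P (N + h) ≤
        (if 2 ^ (j + 1) ≤ N + L then (1 : ℝ) else 0) + (if good (PH H) W N then (1 : ℝ) else 0) * w := by
      intro N hN
      rw [Finset.mem_Ico] at hN
      by_cases hs : 2 ^ (j + 1) ≤ N + L
      · rw [if_pos hs]
        have h1 : ∏ h ∈ H, rhoG P (N + h) ≤ 1 := Finset.prod_le_one (fun h _ => (rhoG_01 P _).1) fun h _ => (rhoG_01 P _).2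
        have h2 : 0 ≤ (if good (PH H) W N then (1 : ℝ) else 0) * w := by split_ifs <;> simp [hw0]
        linarith
      · rw [if_neg hs, zero_add, rho_good P H hH (j := j) (by omega) (by omega), ← hWd, ← hc]
        split_ifs with hg
        · rw [one_mul]
          refine le_min (Finset.prod_le_one (fun h _ => bb_nonneg hcpos.le _) fun h _ => bb_le c _) ?_
          rw [hk, ← Finset.prod_const]
          refine Finset.prod_le_prod (fun h _ => bb_nonneg hcpos.le _) fun h _ => ?_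
          refine (min_le_right _ _).trans ?_
          exact div_le_div_of_nonneg_left hcpos.le hjl (hlogN (N + h) (by omega))
        · simp
    refine (Finset.sum_le_sum hpt).trans ?_
    rw [Finset.sum_add_distrib, ← Finset.sum_mul]
    have h3 : (∑ N ∈ Finset.Ico a b, (if good (PH H) W N then (1 : ℝ) else 0)) * w ≤ (((b : ℝ) - a) * d + 2 * W) * w :=
      mul_le_mul_of_nonneg_right (by linarith [hgI.2]) hw0
    have h4 : ((b : ℝ) - a) * d * w ≤ ((b : ℝ) - a) * d * (c / (j * Real.log 2)) ^ k :=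
      mul_le_mul_of_nonneg_left hw2 (by positivity)
    have h5 : 2 * (W : ℝ) * w ≤ 2 * W * 1 := mul_le_mul_of_nonneg_left hw1 (by positivity)
    have h6 : ((b : ℝ) - a) * d * (c / (j * Real.log 2)) ^ k = ((b : ℝ) - a) * (singH (P j) H / (j * Real.log 2) ^ k) := by
      rw [hS, div_pow]
      ring
    rw [← h6]
    linarith
  · intro hcj
    have hj1 : 0 < ((j : ℝ) + 1) * Real.log 2 := by positivity
    set w : ℝ := (c / ((j + 1) * Real.log 2)) ^ k with hw
    have hw0 : 0 ≤ w := by positivity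
    have hq1 : c / ((j + 1) * Real.log 2) ≤ 1 := (div_le_one hj1).2 hcj
    have hw1 : w ≤ 1 := pow_le_one₀ (by positivity) hq1
    have hpt : ∀ N ∈ Finset.Ico a b, (if good (PH H) W N then (1 : ℝ) else 0) * w - (if 2 ^ (j + 1) ≤ N + L then (1 : ℝ) else 0) * w ≤
        ∏ h ∈ H, rhoG P (N + h) := by
      intro N hN
      rw [Finset.mem_Ico] at hN
      by_cases hs : 2 ^ (j + 1) ≤ N + L
      · rw [if_pos hs]
        have h1 : 0 ≤ ∏ h ∈ H, rhoG P (N + h) := Finset.prod_nonneg fun h _ => (rhoG_01 P _).1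
        have h2 : (if good (PH H) W N then (1 : ℝ) else 0) * w ≤ w := by split_ifs <;> simp [hw0]
        linarith
      · rw [if_neg hs, zero_mul, sub_zero, rho_good P H hH (j := j) (by omega) (by omega), ← hWd, ← hc]
        split_ifs with hg
        · rw [one_mul, hw, hk, ← Finset.prod_const]
          refine Finset.prod_le_prod (fun h _ => by positivity) fun h hh => ?_
          unfold bb
          refine le_min hq1 ?_
          have h1 : Real.log ((N + h : ℕ) : ℝ) ≤ (j + 1) * Real.log 2 := by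
            have h2 := Finset.mem_range.1 (hH hh)
            have h3 : N + h ≤ 2 ^ (j + 1) := by omega
            have h4 : ((N + h : ℕ) : ℝ) ≤ 2 ^ (j + 1) := by exact_mod_cast h3
            have h5 : (0 : ℝ) < ((N + h : ℕ) : ℝ) := by
              have : 0 < N := lt_of_lt_of_le (by positivity) (ha.trans hN.1)
              exact_mod_cast (by omega : 0 < N + h)
            have h6 := Real.log_le_log h5 h4
            rw [Real.log_pow] at h6
            push_cast at h6 ⊢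
            exact h6
          have h2 : 0 < Real.log ((N + h : ℕ) : ℝ) := lt_of_lt_of_le hjl (hlogN (N + h) (by omega))
          exact div_le_div_of_nonneg_left hcpos.le h2 h1
        · simp
    refine le_trans ?_ (Finset.sum_le_sum hpt)
    rw [Finset.sum_sub_distrib, ← Finset.sum_mul, ← Finset.sum_mul]
    have h3 : (((b : ℝ) - a) * d - 2 * W) * w ≤ (∑ N ∈ Finset.Ico a b, (if good (PH H) W N then (1 : ℝ) else 0)) * w :=
      mul_le_mul_of_nonneg_right (by linarith [hgI.1]) hw0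
    have h4 : (∑ N ∈ Finset.Ico a b, (if 2 ^ (j + 1) ≤ N + L then (1 : ℝ) else 0)) * w ≤ L * 1 :=
      mul_le_mul hunsafe hw1 hw0 hL0
    have h5 : 2 * (W : ℝ) * w ≤ 2 * W * 1 := mul_le_mul_of_nonneg_left hw1 (by positivity)
    have h6 : ((b : ℝ) - a) * d * w = ((b : ℝ) - a) * (singH (P j) H / ((j + 1) * Real.log 2) ^ k) := by
      rw [hS, hw, div_pow]
      ring
    rw [← h6]
    linarith

/-- all blocks between `2^J₀` and `x` -/
lemma blocks (P : ℕ → Finset ℕ) (hP : ∀ j, ∀ p ∈ P j, p.Prime) (H : Finset ℕ) {L : ℕ} (hH : H ⊆ Finset.range (L + 1))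
    {J₀ J x : ℕ} (hJ₀ : 1 ≤ J₀) (hJ : J₀ ≤ J) (hx : 2 ^ J ≤ x) (hx' : x < 2 ^ (J + 1)) {V S₁ S₂ : ℝ}
    (hV : ∀ j, J₀ ≤ j → j ≤ J → ((∏ p ∈ P j, p : ℕ) : ℝ) ≤ V)
    (hc : ∀ j, J₀ ≤ j → j ≤ J → ((∏ p ∈ P j, p : ℕ) : ℝ) / Nat.totient (∏ p ∈ P j, p) ≤ (j + 1) * Real.log 2)
    (hS₁ : ∀ j, J₀ ≤ j → j ≤ J → S₁ ≤ singH (P j) H) (hS₂ : ∀ j, J₀ ≤ j → j ≤ J → singH (P j) H ≤ S₂) :
    (((x : ℝ) + 1) - 2 ^ J₀) * (S₁ / ((J + 1) * Real.log 2) ^ H.card) - (J + 1) * (L + 2 * V) ≤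
      ∑ N ∈ Finset.Ico (2 ^ J₀) (x + 1), ∏ h ∈ H, rhoG P (N + h) ∧
    ∑ N ∈ Finset.Ico (2 ^ J₀) (x + 1), ∏ h ∈ H, rhoG P (N + h) ≤
      (((x : ℝ) + 1) - 2 ^ J₀) * (S₂ / (J₀ * Real.log 2) ^ H.card) + (J + 1) * (L + 2 * V) := by
  have hl2 : 0 < Real.log 2 := Real.log_pos (by norm_num)
  have hJ₀' : (1 : ℝ) ≤ J₀ := by exact_mod_cast hJ₀
  have hJ' : (J₀ : ℝ) ≤ J := by exact_mod_cast hJ
  have hV0 : 0 ≤ V := (Nat.cast_nonneg _).trans (hV J hJ le_rfl)
  have hL0 : (0 : ℝ) ≤ L := Nat.cast_nonneg L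
  -- one block
  have hone : ∀ j, J₀ ≤ j → j ≤ J → ∀ a b : ℕ, a ≤ b → 2 ^ j ≤ a → b ≤ 2 ^ (j + 1) →
      ((b : ℝ) - a) * (S₁ / ((J + 1) * Real.log 2) ^ H.card) - (L + 2 * V) ≤ ∑ N ∈ Finset.Ico a b, ∏ h ∈ H, rhoG P (N + h) ∧
      ∑ N ∈ Finset.Ico a b, ∏ h ∈ H, rhoG P (N + h) ≤ ((b : ℝ) - a) * (S₂ / (J₀ * Real.log 2) ^ H.card) + (L + 2 * V) := by
    intro j hj1 hj2 a b hab ha hb
    have h1 := block P hP H hH (j := j) (by omega) hab ha hb
    have hba : (0 : ℝ) ≤ (b : ℝ) - a := by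
      have : (a : ℝ) ≤ b := by exact_mod_cast hab
      linarith
    have hj1' : (J₀ : ℝ) ≤ j := by exact_mod_cast hj1
    have hj2' : (j : ℝ) ≤ J := by exact_mod_cast hj2
    have hS0 : 0 ≤ singH (P j) H := singH_nonneg H (P j) (hP j)
    have h2 := h1.2 (hc j hj1 hj2)
    have h3 := hV j hj1 hj2
    constructor
    · refine le_trans ?_ h2
      have h4 : S₁ / ((J + 1) * Real.log 2) ^ H.card ≤ singH (P j) H / ((j + 1) * Real.log 2) ^ H.card := by
        apply div_le_div₀ hS0 (hS₁ j hj1 hj2) (by positivity)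
        apply pow_le_pow_left₀ (by positivity)
        apply mul_le_mul_of_nonneg_right _ hl2.le
        linarith
      have h5 := mul_le_mul_of_nonneg_left h4 hba
      linarith
    · refine h1.1.trans ?_
      have h4 : singH (P j) H / (j * Real.log 2) ^ H.card ≤ S₂ / (J₀ * Real.log 2) ^ H.card := by
        apply div_le_div₀ (hS0.trans (hS₂ j hj1 hj2)) (hS₂ j hj1 hj2) (by positivity)
        apply pow_le_pow_left₀ (by positivity)
        apply mul_le_mul_of_nonneg_right _ hl2.le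
        exact hj1'
      have h5 := mul_le_mul_of_nonneg_left h4 hba
      linarith
  -- complete blocks
  have hcomp : ∀ i, J₀ ≤ i → i ≤ J →
      (((2 ^ i : ℕ) : ℝ) - 2 ^ J₀) * (S₁ / ((J + 1) * Real.log 2) ^ H.card) - i * (L + 2 * V) ≤
        ∑ N ∈ Finset.Ico (2 ^ J₀) (2 ^ i), ∏ h ∈ H, rhoG P (N + h) ∧
      ∑ N ∈ Finset.Ico (2 ^ J₀) (2 ^ i), ∏ h ∈ H, rhoG P (N + h) ≤
        (((2 ^ i : ℕ) : ℝ) - 2 ^ J₀) * (S₂ / (J₀ * Real.log 2) ^ H.card) + i * (L + 2 * V) := by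
    intro i hi
    induction i, hi using Nat.le_induction with
    | base =>
      intro _
      simp only [Finset.Ico_self, Finset.sum_empty, Nat.cast_pow, Nat.cast_ofNat, sub_self, zero_mul, zero_sub, zero_add]
      constructor
      · have : 0 ≤ (J₀ : ℝ) * (L + 2 * V) := by positivity
        linarith
      · positivity
    | succ i hi ih =>
      intro hi2
      have h1 := ih (by omega)
      have h2 := hone i hi (by omega) (2 ^ i) (2 ^ (i + 1)) (Nat.pow_le_pow_right (by norm_num) (by omega)) le_rfl le_rfl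
      rw [← Finset.sum_Ico_consecutive _ (Nat.pow_le_pow_right (by norm_num) hi) (Nat.pow_le_pow_right (by norm_num) (Nat.le_succ i))]
      push_cast at h1 h2 ⊢
      constructor
      · nlinarith [h1.1, h2.1]
      · nlinarith [h1.2, h2.2]
  have h1 := hcomp J hJ le_rfl
  have h2 := hone J hJ le_rfl (2 ^ J) (x + 1) (by omega) le_rfl (by omega)
  rw [← Finset.sum_Ico_consecutive _ (Nat.pow_le_pow_right (by norm_num) hJ) (show 2 ^ J ≤ x + 1 by omega)]
  push_cast at h1 h2 ⊢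
  constructor
  · nlinarith [h1.1, h2.1]
  · nlinarith [h1.2, h2.2]

/-- `W/φ(W)` is at most `1 +` the number of primes -/
lemma prod_ratio_le (Q : Finset ℕ) (hQ : ∀ p ∈ Q, p.Prime) :
    ((∏ p ∈ Q, p : ℕ) : ℝ) / Nat.totient (∏ p ∈ Q, p) ≤ Q.card + 1 := by
  classical
  have h0 : 0 < ∏ p ∈ Q, p := Finset.prod_pos fun q hq => (hQ q hq).pos
  have h1 : ((∏ p ∈ Q, p : ℕ) : ℝ) / Nat.totient (∏ p ∈ Q, p) = ∏ p ∈ Q, (1 - 1 / (p : ℝ))⁻¹ := totient_prod Q hQ
  rw [h1]
  clear h0 h1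
  induction Q using Finset.induction_on_max with
  | empty => simp
  | insert a s ha ih =>
    have hns : a ∉ s := fun h => lt_irrefl _ (ha a h)
    rw [Finset.prod_insert hns, Finset.card_insert_of_notMem hns]
    have h2 := ih fun p hp => hQ p (Finset.mem_insert_of_mem hp)
    have h3 : s ⊆ Finset.Ico 2 a := fun p hp => Finset.mem_Ico.2 ⟨(hQ p (Finset.mem_insert_of_mem hp)).two_le, ha p hp⟩
    have h4 := Finset.card_le_card h3
    rw [Nat.card_Ico] at h4
    have ha2 := (hQ a (Finset.mem_insert_self _ _)).two_le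
    have h5 : s.card + 2 ≤ a := by omega
    have h6 : (s.card : ℝ) + 2 ≤ a := by exact_mod_cast h5
    have hs0 : (0 : ℝ) ≤ s.card := Nat.cast_nonneg _
    have h7 : (1 - 1 / (a : ℝ))⁻¹ * ((s.card : ℝ) + 1) ≤ s.card + 2 := by
      have e1 : (1 - 1 / (a : ℝ))⁻¹ = a / (a - 1) := by
        have : (a : ℝ) ≠ 0 := by linarith
        have : (a : ℝ) - 1 ≠ 0 := by linarith
        field_simp
      rw [e1, div_mul_eq_mul_div, div_le_iff₀ (by linarith)]
      nlinarith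
    have h8 : 0 ≤ (1 - 1 / (a : ℝ))⁻¹ := by
      have : 1 / (a : ℝ) ≤ 1 := by
        rw [div_le_one (by linarith)]
        linarith
      exact inv_nonneg.2 (by linarith)
    calc (1 - 1 / (a : ℝ))⁻¹ * ∏ p ∈ s, (1 - 1 / (p : ℝ))⁻¹ ≤ (1 - 1 / (a : ℝ))⁻¹ * (s.card + 1) := mul_le_mul_of_nonneg_left h2 h8
      _ ≤ s.card + 2 := h7
      _ = _ := by push_cast; ring

lemma ratio_le_log (Q : Finset ℕ) (hQ : ∀ p ∈ Q, p.Prime) :
    ((∏ p ∈ Q, p : ℕ) : ℝ) / Nat.totient (∏ p ∈ Q, p) ≤ Real.log (∏ p ∈ Q, p : ℕ) / Real.log 2 + 1 := by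
  refine (prod_ratio_le Q hQ).trans ?_
  have h1 : 2 ^ Q.card ≤ ∏ p ∈ Q, p := Finset.pow_card_le_prod _ _ _ fun p hp => (hQ p hp).two_le
  have h2 : ((2 : ℝ)) ^ Q.card ≤ ((∏ p ∈ Q, p : ℕ) : ℝ) := by exact_mod_cast h1
  have h3 := Real.log_le_log (by positivity) h2
  rw [Real.log_pow] at h3
  have hl2 : 0 < Real.log 2 := Real.log_pos (by norm_num)
  have : (Q.card : ℝ) ≤ Real.log (∏ p ∈ Q, p : ℕ) / Real.log 2 := by
    rw [le_div_iff₀ hl2]
    exact h3
  linarith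

end Pool.Agent.N732.GS
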