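import Mathlib
import Pool.Agent.N732.GS.Block

set_option autoImplicit false
set_option linter.unusedSectionVars false

/-! # The expected number of tuples with a precise error, true singular series -/

open Filter Set
open scoped Topology

namespace Pool.Agent.N732.GS

open Pool.Agent.R528.RM

lemma tendsto_sqrt_nat : Tendsto Nat.sqrt atTop atTop := by
  rw [tendsto_atTop]
  intro b
  filter_upwards [eventually_ge_atTop (b * b)] with n hn
  exact Nat.le_sqrt.2 hn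

lemma sqrt_facts (J : ℕ) (hs : 2 ≤ Nat.sqrt J) :
    Nat.sqrt J * Nat.sqrt J ≤ J ∧ J + 1 ≤ (Nat.sqrt J + 1) * (Nat.sqrt J + 1) ∧ 2 * Nat.sqrt J ≤ J ∧ 4 ≤ J := by
  have h1 := Nat.sqrt_le J
  have h2 := Nat.lt_succ_sqrt J
  have h3 : 2 * Nat.sqrt J ≤ Nat.sqrt J * Nat.sqrt J := Nat.mul_le_mul_right _ hs
  have h4 : 2 * 2 ≤ Nat.sqrt J * Nat.sqrt J := Nat.mul_le_mul hs hs
  exact ⟨h1, h2, by omega, by omega⟩

lemma asy_log (K : ℝ) {ε : ℝ} (hε : 0 < ε) (m : ℕ) :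
    ∀ᶠ J : ℕ in atTop, K / (Nat.sqrt J : ℝ) ≤ ε / (Real.log J) ^ 2 ∧
      4 * ((Nat.sqrt J : ℝ) + 1) ^ m / 2 ^ (Nat.sqrt J) ≤ ε / (Real.log J) ^ 2 := by
  have t0 : Tendsto (fun s : ℕ => Real.log ((s : ℝ) + 1) ^ 2 / ((s : ℝ) + 1)) atTop (𝓝 0) := by
    have h20 : Tendsto (fun x : ℝ => Real.log x ^ (2 : ℝ) / x ^ (1 : ℝ)) atTop (𝓝 0) :=
      (isLittleO_log_rpow_rpow_atTop (2 : ℝ) (one_pos)).tendsto_div_nhds_zero
    have h21 : Tendsto (fun s : ℕ => (s : ℝ) + 1) atTop atTop := tendsto_atTop_add_const_right _ _ tendsto_natCast_atTop_atTop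
    refine (h20.comp h21).congr fun s => ?_
    simp only [Function.comp_apply, Real.rpow_one]
    rw [← Real.rpow_natCast]
    norm_num
  have t1 : Tendsto (fun s : ℕ => (8 * |K|) * (Real.log ((s : ℝ) + 1) ^ 2 / ((s : ℝ) + 1))) atTop (𝓝 0) := by
    have := t0.const_mul (8 * |K|)
    rwa [mul_zero] at this
  have t2 : Tendsto (fun s : ℕ => 32 * (((s + 1 : ℕ) : ℝ) ^ (m + 2) / 2 ^ (s + 1))) atTop (𝓝 0) := by
    have h1 := (tendsto_pow_const_div_const_pow_of_one_lt (m + 2) (show (1 : ℝ) < 2 by norm_num)).comp (tendsto_add_atTop_nat 1)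
    have := h1.const_mul 32
    rw [mul_zero] at this
    exact this
  have t3 := tendsto_sqrt_nat.eventually ((t1.eventually (gt_mem_nhds hε)).and (t2.eventually (gt_mem_nhds hε)))
  filter_upwards [t3, tendsto_sqrt_nat.eventually_ge_atTop 2] with J hJ hs
  obtain ⟨f1, f2, f3, f4⟩ := sqrt_facts J hs
  set s := Nat.sqrt J with hsd
  have hJ4 : (4 : ℝ) ≤ J := by exact_mod_cast f4
  have hl : 0 < Real.log J := Real.log_pos (by linarith)
  have hs2 : (2 : ℝ) ≤ s := by exact_mod_cast hs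
  have hlog : Real.log J ≤ 2 * Real.log ((s : ℝ) + 1) := by
    have h1 : (J : ℝ) ≤ ((s : ℝ) + 1) ^ 2 := by
      have : (J : ℝ) + 1 ≤ ((s : ℝ) + 1) * ((s : ℝ) + 1) := by exact_mod_cast f2
      nlinarith
    have h2 := Real.log_le_log (by linarith) h1
    rwa [Real.log_pow] at h2
  have hls : Real.log ((s : ℝ) + 1) ≤ (s : ℝ) + 1 := by
    have := Real.log_le_sub_one_of_pos (show 0 < (s : ℝ) + 1 by linarith)
    linarith
  have hl2 : Real.log J ^ 2 ≤ 4 * Real.log ((s : ℝ) + 1) ^ 2 := by nlinarith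
  constructor
  · rw [le_div_iff₀ (by positivity), div_mul_eq_mul_div, div_le_iff₀ (by linarith)]
    have h3 := hJ.1
    rw [mul_div_assoc', div_lt_iff₀ (by linarith)] at h3
    have h4 : K * Real.log J ^ 2 ≤ |K| * (4 * Real.log ((s : ℝ) + 1) ^ 2) :=
      mul_le_mul (le_abs_self K) hl2 (by positivity) (abs_nonneg K)
    have h5 : ε * ((s : ℝ) + 1) ≤ ε * (2 * s) := mul_le_mul_of_nonneg_left (by linarith) hε.le
    linarith
  · rw [le_div_iff₀ (by positivity), div_mul_eq_mul_div, div_le_iff₀ (by positivity)]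
    have h3 := hJ.2
    rw [mul_div_assoc', div_lt_iff₀ (by positivity)] at h3
    push_cast at h3
    have h4 : Real.log J ^ 2 ≤ 4 * ((s : ℝ) + 1) ^ 2 := by
      have h0 : 0 ≤ Real.log ((s : ℝ) + 1) := Real.log_nonneg (by linarith)
      nlinarith
    have h5 : 4 * ((s : ℝ) + 1) ^ m * Real.log J ^ 2 ≤ 4 * ((s : ℝ) + 1) ^ m * (4 * ((s : ℝ) + 1) ^ 2) :=
      mul_le_mul_of_nonneg_left h4 (by positivity)
    have h6 : 4 * ((s : ℝ) + 1) ^ m * (4 * ((s : ℝ) + 1) ^ 2) * 2 = 32 * ((s : ℝ) + 1) ^ (m + 2) := by ring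
    have h7 : (2 : ℝ) ^ (s + 1) = 2 * 2 ^ s := by ring
    rw [h7] at h3
    have h8 : 32 * ((s : ℝ) + 1) ^ (m + 2) ≤ 2 * (ε * 2 ^ s) := by linarith
    linarith

lemma asy_y (k C : ℕ) {ε : ℝ} (hε : 0 < ε) :
    ∀ᶠ J : ℕ in atTop, ∀ J₀ : ℕ, J ≤ 2 * J₀ →
      2 * k ≤ ⌊Real.log J₀ ^ 4⌋₊ ∧ 2 * k ^ 2 ≤ ⌊Real.log J₀ ^ 4⌋₊ ∧ 1 ≤ ⌊Real.log J₀ ^ 4⌋₊ ∧
      2 * (k : ℝ) ^ 2 / ⌊Real.log J₀ ^ 4⌋₊ ≤ ε / (Real.log J) ^ 2 ∧
      2 * k / ⌊Real.log J₀ ^ 4⌋₊ * ((k ^ 2 * Nat.log 2 ((J + 1) ^ C) : ℕ) : ℝ) ≤ ε / (Real.log J) ^ 2 := by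
  set M : ℝ := (64 * k ^ 2 + 256 * k ^ 3 * C) / ε + 64 * k ^ 2 + 64 * k + 64 with hM
  have hk0 : (0 : ℝ) ≤ k := Nat.cast_nonneg k
  have hC0 : (0 : ℝ) ≤ C := Nat.cast_nonneg C
  filter_upwards [tendsto_log.eventually_ge_atTop M, eventually_ge_atTop 16] with J hJ hJ16 J₀ hJ₀
  have hJ' : (16 : ℝ) ≤ J := by exact_mod_cast hJ16
  have hJ₀' : (J : ℝ) ≤ 2 * J₀ := by exact_mod_cast hJ₀
  set l := Real.log J with hl
  have hM0 : 0 ≤ (64 * k ^ 2 + 256 * k ^ 3 * C) / ε := by positivity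
  have hk2 : 0 ≤ (k : ℝ) ^ 2 := by positivity
  have hl64 : 64 ≤ l := by linarith
  have hl1 : 1 ≤ l := by linarith
  have hlJ : l / 2 ≤ Real.log J₀ := by
    have h1 : (J : ℝ) ≤ (J₀ : ℝ) ^ 2 := by nlinarith
    have h2 := Real.log_le_log (by linarith) h1
    rw [Real.log_pow] at h2
    push_cast at h2
    linarith
  set y := ⌊Real.log J₀ ^ 4⌋₊ with hy
  have hyl : l ^ 4 / 32 ≤ y := by
    have h1 : (l / 2) ^ 4 ≤ Real.log J₀ ^ 4 := pow_le_pow_left₀ (by linarith) hlJ 4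
    have h2 := Nat.lt_floor_add_one (Real.log (J₀ : ℝ) ^ 4)
    rw [← hy] at h2
    have h3 : (l / 2) ^ 4 = l ^ 4 / 16 := by ring
    have h4 : l ≤ l ^ 4 := le_self_pow₀ hl1 (by norm_num)
    linarith
  have hl4 : l ≤ l ^ 4 / 64 := by
    have h1 : 64 * 1 ≤ l * l ^ 2 := mul_le_mul hl64 (one_le_pow₀ hl1) (by norm_num) (by linarith)
    nlinarith
  have hlp : 0 < l := by linarith
  have hy0 : (0 : ℝ) < y := lt_of_lt_of_le (by positivity) hyl
  have hyl' : 2 * l ≤ y := by linarith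
  refine ⟨?_, ?_, ?_, ?_, ?_⟩
  · have : (2 * k : ℝ) ≤ y := by linarith
    exact_mod_cast this
  · have : (2 * k ^ 2 : ℝ) ≤ y := by linarith
    exact_mod_cast this
  · have : (1 : ℝ) ≤ y := by linarith
    exact_mod_cast this
  · rw [div_le_div_iff₀ hy0 (by positivity)]
    have h1 : 64 * (k : ℝ) ^ 2 ≤ ε * l := by
      have h2 : (64 * (k : ℝ) ^ 2 + 256 * k ^ 3 * C) / ε ≤ l := by linarith
      rw [div_le_iff₀ hε] at h2
      have : 0 ≤ 256 * (k : ℝ) ^ 3 * C := by positivity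
      linarith
    have h3 : ε * (l ^ 4 / 32) ≤ ε * y := mul_le_mul_of_nonneg_left hyl hε.le
    have h4 : 64 * (k : ℝ) ^ 2 * l ^ 2 ≤ ε * l * l ^ 2 := mul_le_mul_of_nonneg_right h1 (by positivity)
    have h5 : ε * l * l ^ 2 ≤ ε * l ^ 4 := by
      have : l * l ^ 2 ≤ l ^ 4 := by nlinarith [pow_pos hlp 3]
      nlinarith
    nlinarith
  · have h1 : (Nat.log 2 ((J + 1) ^ C) : ℝ) ≤ 4 * C * l := by
      have h2 : 2 ^ Nat.log 2 ((J + 1) ^ C) ≤ (J + 1) ^ C := Nat.pow_log_le_self 2 (by positivity)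
      have h3 : (2 : ℝ) ^ Nat.log 2 ((J + 1) ^ C) ≤ ((J : ℝ) + 1) ^ C := by exact_mod_cast h2
      have h4 := Real.log_le_log (by positivity) h3
      rw [Real.log_pow, Real.log_pow] at h4
      have h5 : Real.log ((J : ℝ) + 1) ≤ 2 * l := by
        have h6 : (J : ℝ) + 1 ≤ (J : ℝ) ^ 2 := by nlinarith
        have h7 := Real.log_le_log (by linarith) h6
        rw [Real.log_pow] at h7
        push_cast at h7
        exact h7
      have h6 : (1 : ℝ) / 2 ≤ Real.log 2 := by linarith [Real.log_two_gt_d9]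
      have h7 : (Nat.log 2 ((J + 1) ^ C) : ℝ) * (1 / 2) ≤ Nat.log 2 ((J + 1) ^ C) * Real.log 2 :=
        mul_le_mul_of_nonneg_left h6 (Nat.cast_nonneg _)
      have h8 : (C : ℝ) * Real.log ((J : ℝ) + 1) ≤ C * (2 * l) := mul_le_mul_of_nonneg_left h5 hC0
      linarith
    push_cast
    rw [div_mul_eq_mul_div, div_le_div_iff₀ hy0 (by positivity)]
    have h2 : 256 * (k : ℝ) ^ 3 * C ≤ ε * l := by
      have h2 : (64 * (k : ℝ) ^ 2 + 256 * k ^ 3 * C) / ε ≤ l := by linarith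
      rw [div_le_iff₀ hε] at h2
      have : 0 ≤ 64 * (k : ℝ) ^ 2 := by positivity
      linarith
    have h3 : ε * (l ^ 4 / 32) ≤ ε * y := mul_le_mul_of_nonneg_left hyl hε.le
    have h4 : 2 * (k : ℝ) * ((k : ℝ) ^ 2 * (Nat.log 2 ((J + 1) ^ C) : ℝ)) * l ^ 2 ≤ 2 * (k : ℝ) * ((k : ℝ) ^ 2 * (4 * C * l)) * l ^ 2 := by
      apply mul_le_mul_of_nonneg_right _ (by positivity)
      apply mul_le_mul_of_nonneg_left _ (by positivity)
      exact mul_le_mul_of_nonneg_left h1 (by positivity)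
    have h5 : 2 * (k : ℝ) * ((k : ℝ) ^ 2 * (4 * C * l)) * l ^ 2 = (256 * k ^ 3 * C) * l ^ 3 / 32 := by ring
    have h6 : (256 * (k : ℝ) ^ 3 * C) * l ^ 3 ≤ ε * l * l ^ 3 := mul_le_mul_of_nonneg_right h2 (by positivity)
    have h7 : ε * l * l ^ 3 = ε * l ^ 4 := by ring
    linarith

end Pool.Agent.N732.GS
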