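import Mathlib
import Pool.Agent.N732.GS.Exp

set_option autoImplicit false
set_option linter.unusedSectionVars false

/-! # The expected number of tuples: the final estimate -/

open Filter Set
open scoped Topology

namespace Pool.Agent.N732.GS

open Pool.Agent.R528.RM

lemma exp_le_of_le {t : ℝ} (h0 : 0 ≤ t) (h1 : t ≤ 1) : Real.exp t ≤ 1 + 2 * t := by
  have h := Real.abs_exp_sub_one_le (x := t) (by rw [abs_of_nonneg h0]; exact h1)
  rw [abs_of_nonneg h0] at h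
  have := (le_abs_self _).trans h
  linarith

/-- for one `J` -/
lemma det_J (P : ℕ → Finset ℕ) (hP : ∀ j, ∀ p ∈ P j, p.Prime) (k C J s J₀ y : ℕ) {u c : ℝ} (hu0 : 0 < u) (hu1 : u ≤ 1) (hc0 : 0 < c)
    (hs : 2 ≤ s) (hsJ : s * s ≤ J) (hJs : J + 1 ≤ (s + 1) * (s + 1)) (hJ₀ : J₀ + s = J) (h2s : 2 * s ≤ J)
    (hW : ∀ j, J₀ ≤ j → j ≤ J → Real.log (∏ p ∈ P j, p : ℕ) ≤ (j : ℝ) / 8)
    (hJ16 : 16 ≤ J)
    (hPy : ∀ j, J₀ ≤ j → j ≤ J → ∀ p : ℕ, p.Prime → p ≤ y → p ∈ P j)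
    (hy : 2 * k ≤ y) (hy2 : 2 * k ^ 2 ≤ y) (hy1 : 1 ≤ y)
    (a1 : (4 * k + 1 : ℝ) / s ≤ u / 8) (a2 : 4 * ((s : ℝ) + 1) ^ (2 * (C + 1 + k)) / 2 ^ s ≤ c * u / 8)
    (a3 : 2 * (k : ℝ) ^ 2 / y ≤ u / 8) (a4 : 2 * k / y * ((k ^ 2 * Nat.log 2 ((J + 1) ^ C) : ℕ) : ℝ) ≤ u / 8)
    (x : ℕ) (hx : 2 ^ J ≤ x) (hx' : x < 2 ^ (J + 1)) (H : Finset ℕ) (hH : H ⊆ Finset.range ((J + 1) ^ C + 1)) (hHk : H.card = k)
    (hS : c ≤ sing H) :
    |(∑ n ∈ Finset.range x, ∏ h ∈ H, rhoG P (n + 1 + h)) * Real.log x ^ k / x - sing H| ≤ u * sing H := by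
  have hSpos : 0 < sing H := lt_of_lt_of_le hc0 hS
  set S := sing H with hSd
  set L : ℕ := (J + 1) ^ C with hL
  have hl2 : 0 < Real.log 2 := Real.log_pos (by norm_num)
  have hl2' : (1 : ℝ) / 2 ≤ Real.log 2 := by linarith [Real.log_two_gt_d9]
  have hl2'' : Real.log 2 ≤ 1 := by linarith [Real.log_two_lt_d9]
  have hsR : (2 : ℝ) ≤ s := by exact_mod_cast hs
  have hs0 : (0 : ℝ) < s := by linarith
  have hJR : (16 : ℝ) ≤ J := by exact_mod_cast hJ16
  have hJ₀R : (J₀ : ℝ) + s = J := by exact_mod_cast hJ₀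
  have hJ₀1 : 1 ≤ J₀ := by omega
  have hJ₀1' : (1 : ℝ) ≤ J₀ := by exact_mod_cast hJ₀1
  have hJ₀2 : (J : ℝ) ≤ 2 * J₀ := by
    have : J ≤ 2 * J₀ := by omega
    exact_mod_cast this
  have hk0 : (0 : ℝ) ≤ k := Nat.cast_nonneg k
  have hxR : (2 : ℝ) ^ J ≤ x := by exact_mod_cast hx
  have hx0 : (0 : ℝ) < x := lt_of_lt_of_le (by positivity) hxR
  have hxR' : (x : ℝ) ≤ 2 ^ (J + 1) := by exact_mod_cast hx'.le
  -- the logarithm of x
  set l := Real.log x with hl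
  have hl_up : l ≤ (J + 1) * Real.log 2 := by
    have := Real.log_le_log hx0 hxR'
    rw [Real.log_pow] at this
    push_cast at this
    exact this
  have hl_lo : J * Real.log 2 ≤ l := by
    have := Real.log_le_log (by positivity) hxR
    rwa [Real.log_pow] at this
  have hl0 : 0 < l := lt_of_lt_of_le (by positivity) hl_lo
  have hl_up' : l ≤ J + 1 := hl_up.trans (by nlinarith)
  -- singular series
  have hbad := bad_card H hH
  rw [hHk] at hbad
  have hSj : ∀ j, J₀ ≤ j → j ≤ J → (1 - u / 8) * S ≤ singH (P j) H ∧ singH (P j) H ≤ (1 + u / 4) * S := by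
    intro j hj1 hj2
    have h1 := sing_bounds H (y := y) (by rw [hHk]; exact hy) (by rw [hHk]; exact hy2) hy1 (P j) (hP j) (hPy j hj1 hj2)
    rw [hHk, ← hSd] at h1
    have h0 := singH_nonneg H (P j) (hP j)
    constructor
    · have h2 : 2 * (k : ℝ) / y * (bad H).card ≤ u / 8 := by
        refine le_trans ?_ a4
        apply mul_le_mul_of_nonneg_left _ (by positivity)
        exact_mod_cast hbad
      have h3 : Real.exp (2 * (k : ℝ) / y * (bad H).card) ≤ Real.exp (u / 8) := Real.exp_le_exp.2 h2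
      have h4 : S ≤ Real.exp (u / 8) * singH (P j) H := h1.2.trans (mul_le_mul_of_nonneg_right h3 h0)
      have h5 : 1 - u / 8 ≤ Real.exp (-(u / 8)) := by
        have := Real.add_one_le_exp (-(u / 8))
        linarith
      have h6 : Real.exp (-(u / 8)) * Real.exp (u / 8) = 1 := by rw [← Real.exp_add]; simp
      calc (1 - u / 8) * S ≤ Real.exp (-(u / 8)) * S := mul_le_mul_of_nonneg_right h5 hSpos.le
        _ ≤ Real.exp (-(u / 8)) * (Real.exp (u / 8) * singH (P j) H) := mul_le_mul_of_nonneg_left h4 (Real.exp_pos _).le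
        _ = singH (P j) H := by rw [← mul_assoc, h6, one_mul]
    · have h2 : (1 - u / 8) * singH (P j) H ≤ S := le_trans (mul_le_mul_of_nonneg_right (by linarith) h0) h1.1
      have h3 : 1 ≤ (1 + u / 4) * (1 - u / 8) := by nlinarith
      calc singH (P j) H = 1 * singH (P j) H := (one_mul _).symm
        _ ≤ ((1 + u / 4) * (1 - u / 8)) * singH (P j) H := mul_le_mul_of_nonneg_right h3 h0
        _ = (1 + u / 4) * ((1 - u / 8) * singH (P j) H) := by ring
        _ ≤ _ := mul_le_mul_of_nonneg_left h2 (by linarith)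
  -- sizes of the moduli
  have hWpos : ∀ j, (0 : ℝ) < ((∏ p ∈ P j, p : ℕ) : ℝ) := fun j => by
    exact_mod_cast (Finset.prod_pos fun q hq => (hP j q hq).pos : 0 < ∏ p ∈ P j, p)
  have hV : ∀ j, J₀ ≤ j → j ≤ J → ((∏ p ∈ P j, p : ℕ) : ℝ) ≤ 2 ^ J₀ := by
    intro j hj1 hj2
    have h1 := hW j hj1 hj2
    have h2 : (j : ℝ) ≤ J := by exact_mod_cast hj2
    rw [← Real.log_le_log_iff (hWpos j) (by positivity), Real.log_pow]
    have h3 : (J₀ : ℝ) * (1 / 2) ≤ J₀ * Real.log 2 := mul_le_mul_of_nonneg_left hl2' (by linarith)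
    linarith
  have hc : ∀ j, J₀ ≤ j → j ≤ J → ((∏ p ∈ P j, p : ℕ) : ℝ) / Nat.totient (∏ p ∈ P j, p) ≤ (j + 1) * Real.log 2 := by
    intro j hj1 hj2
    refine (ratio_le_log (P j) (hP j)).trans ?_
    have h1 := hW j hj1 hj2
    have h2 : Real.log (∏ p ∈ P j, p : ℕ) / Real.log 2 ≤ (j : ℝ) / 4 := by
      rw [div_le_iff₀ hl2]
      have h3 : (j : ℝ) / 4 * (1 / 2) ≤ j / 4 * Real.log 2 := mul_le_mul_of_nonneg_left hl2' (by positivity)
      linarith
    have h4 : (8 : ℝ) ≤ j := by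
      have : 8 ≤ j := by omega
      exact_mod_cast this
    nlinarith
  -- the sum
  have hB := blocks P hP H hH hJ₀1 (show J₀ ≤ J by omega) hx hx' (V := 2 ^ J₀) (S₁ := (1 - u / 8) * S) (S₂ := (1 + u / 4) * S) hV hc
    (fun j h1 h2 => (hSj j h1 h2).1) (fun j h1 h2 => (hSj j h1 h2).2)
  rw [hHk] at hB
  set B := ∑ N ∈ Finset.Ico (2 ^ J₀) (x + 1), ∏ h ∈ H, rhoG P (N + h) with hBd
  have hsum : ∑ n ∈ Finset.range x, ∏ h ∈ H, rhoG P (n + 1 + h) =
      ∑ N ∈ Finset.Ico 1 (2 ^ J₀), ∏ h ∈ H, rhoG P (N + h) + B := by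
    rw [hBd, Finset.sum_Ico_consecutive _ Nat.one_le_two_pow (by
      have : 2 ^ J₀ ≤ 2 ^ J := Nat.pow_le_pow_right (by norm_num) (by omega)
      omega), Finset.sum_Ico_eq_sum_range]
    refine Finset.sum_congr (by simp) fun n _ => ?_
    refine Finset.prod_congr rfl fun h _ => ?_
    congr 1
    ring
  have hfirst0 : 0 ≤ ∑ N ∈ Finset.Ico 1 (2 ^ J₀), ∏ h ∈ H, rhoG P (N + h) :=
    Finset.sum_nonneg fun N _ => Finset.prod_nonneg fun h _ => (rhoG_01 P _).1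
  have hfirst : ∑ N ∈ Finset.Ico 1 (2 ^ J₀), ∏ h ∈ H, rhoG P (N + h) ≤ 2 ^ J₀ := by
    refine (Finset.sum_le_sum (g := fun _ => (1 : ℝ)) fun N _ =>
      Finset.prod_le_one (fun h _ => (rhoG_01 P _).1) fun h _ => (rhoG_01 P _).2).trans ?_
    rw [Finset.sum_const, Nat.card_Ico, nsmul_eq_mul, mul_one]
    have h1 : 2 ^ J₀ - 1 ≤ 2 ^ J₀ := Nat.sub_le _ _
    exact_mod_cast h1
  rw [hsum]
  set A := ∑ N ∈ Finset.Ico 1 (2 ^ J₀), ∏ h ∈ H, rhoG P (N + h) with hA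
  -- the error term
  set G : ℝ := 4 * ((s : ℝ) + 1) ^ (2 * (C + 1 + k)) / 2 ^ s with hG
  have h2J : (2 : ℝ) ^ J = 2 ^ J₀ * 2 ^ s := by rw [← pow_add, hJ₀]
  have hErr : (2 ^ J₀ + ((J : ℝ) + 1) * (L + 2 * 2 ^ J₀)) * l ^ k / x ≤ G := by
    have hJp : (1 : ℝ) ≤ (J : ℝ) + 1 := by linarith
    have hLR : (L : ℝ) = ((J : ℝ) + 1) ^ C := by rw [hL]; push_cast; ring
    have hL1 : (1 : ℝ) ≤ L := by rw [hLR]; exact one_le_pow₀ hJp
    have h2p : (1 : ℝ) ≤ 2 ^ J₀ := one_le_pow₀ (by norm_num)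
    have h1 : 2 ^ J₀ + ((J : ℝ) + 1) * (L + 2 * 2 ^ J₀) ≤ 4 * ((J : ℝ) + 1) ^ (C + 1) * 2 ^ J₀ := by
      have e1 : ((J : ℝ) + 1) ^ (C + 1) = ((J : ℝ) + 1) * L := by rw [hLR, pow_succ]; ring
      rw [e1]
      have e2 : (1 : ℝ) ≤ ((J : ℝ) + 1) * L := by nlinarith
      have e3 : (L : ℝ) ≤ L * 2 ^ J₀ := le_mul_of_one_le_right (by linarith) h2p
      have e4 : ((J : ℝ) + 1) * L ≤ ((J : ℝ) + 1) * (L * 2 ^ J₀) := mul_le_mul_of_nonneg_left e3 (by linarith)
      have e5 : (2 : ℝ) ^ J₀ ≤ ((J : ℝ) + 1) * L * 2 ^ J₀ := le_mul_of_one_le_left (by positivity) e2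
      have e6 : ((J : ℝ) + 1) * 2 ^ J₀ ≤ ((J : ℝ) + 1) * L * 2 ^ J₀ := by
        apply mul_le_mul_of_nonneg_right _ (by positivity)
        exact le_mul_of_one_le_right (by linarith) hL1
      linarith
    have h2 : l ^ k ≤ ((J : ℝ) + 1) ^ k := pow_le_pow_left₀ hl0.le hl_up' k
    have h3 : ((J : ℝ) + 1) ≤ ((s : ℝ) + 1) ^ 2 := by
      have : (J : ℝ) + 1 ≤ ((s : ℝ) + 1) * ((s : ℝ) + 1) := by exact_mod_cast hJs
      rw [sq]; exact this
    have h4 : ((J : ℝ) + 1) ^ (C + 1 + k) ≤ ((s : ℝ) + 1) ^ (2 * (C + 1 + k)) := by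
      rw [pow_mul]
      exact pow_le_pow_left₀ (by linarith) h3 _
    rw [div_le_iff₀ hx0]
    calc (2 ^ J₀ + ((J : ℝ) + 1) * (L + 2 * 2 ^ J₀)) * l ^ k ≤ (4 * ((J : ℝ) + 1) ^ (C + 1) * 2 ^ J₀) * ((J : ℝ) + 1) ^ k :=
          mul_le_mul h1 h2 (by positivity) (by positivity)
      _ = 4 * ((J : ℝ) + 1) ^ (C + 1 + k) * 2 ^ J₀ := by rw [pow_add _ (C + 1) k]; ring
      _ ≤ 4 * ((s : ℝ) + 1) ^ (2 * (C + 1 + k)) * 2 ^ J₀ := by
          apply mul_le_mul_of_nonneg_right _ (by positivity)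
          linarith
      _ = G * 2 ^ J := by
          rw [hG, h2J]
          have : (2 : ℝ) ^ s ≠ 0 := by positivity
          field_simp
      _ ≤ G * x := mul_le_mul_of_nonneg_left hxR (by positivity)
  have hGS : G ≤ u / 8 * S := by
    refine a2.trans ?_
    have := mul_le_mul_of_nonneg_left hS (show 0 ≤ u / 8 by positivity)
    linarith
  have h2s' : (s : ℝ) ≤ 2 ^ s := by exact_mod_cast Nat.lt_two_pow_self.le
  have hlk : 0 < l ^ k := by positivity
  have hxs : (s : ℝ) ≤ x := by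
    have : (2 : ℝ) ^ s ≤ 2 ^ J := pow_le_pow_right₀ (by norm_num) (by omega)
    linarith
  have ht0 : 0 ≤ (4 * k + 1 : ℝ) / s := by positivity
  -- main terms
  have hMup : (((x : ℝ) + 1) - 2 ^ J₀) * ((1 + u / 4) * S / (J₀ * Real.log 2) ^ k) * l ^ k / x ≤ (1 + u / 4) * ((1 + u / 4) * S) := by
    have g1 : l ^ k / (J₀ * Real.log 2) ^ k ≤ (1 + 4 / s) ^ k := by
      rw [← div_pow]
      apply pow_le_pow_left₀ (by positivity)
      rw [div_le_iff₀ (by positivity)]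
      refine hl_up.trans ?_
      rw [← mul_assoc]
      apply mul_le_mul_of_nonneg_right _ hl2.le
      have e1 : (1 + 4 / (s : ℝ)) * J₀ = J₀ + 4 * J₀ / s := by ring
      rw [e1]
      have e2 : (s : ℝ) + 1 ≤ 4 * J₀ / s := by
        rw [le_div_iff₀ hs0]
        have e3 : (s : ℝ) * s ≤ J := by exact_mod_cast hsJ
        nlinarith
      linarith
    have g2 : (((x : ℝ) + 1) - 2 ^ J₀) / x ≤ 1 + 1 / s := by
      rw [div_le_iff₀ hx0]
      have e1 : (1 + 1 / (s : ℝ)) * x = x + x / s := by ring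
      rw [e1]
      have e2 : 1 ≤ (x : ℝ) / s := by rw [le_div_iff₀ hs0]; linarith
      have e3 : (0 : ℝ) < 2 ^ J₀ := by positivity
      linarith
    have g3 : (1 + 1 / (s : ℝ)) * (1 + 4 / s) ^ k ≤ 1 + u / 4 := by
      have e1 : 1 + 1 / (s : ℝ) ≤ Real.exp (1 / s) := by have := Real.add_one_le_exp (1 / (s : ℝ)); linarith
      have e2 : 1 + 4 / (s : ℝ) ≤ Real.exp (4 / s) := by have := Real.add_one_le_exp (4 / (s : ℝ)); linarith
      have e3 : (1 + 4 / (s : ℝ)) ^ k ≤ Real.exp (k * (4 / s)) := by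
        rw [Real.exp_nat_mul]
        exact pow_le_pow_left₀ (by positivity) e2 k
      calc (1 + 1 / (s : ℝ)) * (1 + 4 / s) ^ k ≤ Real.exp (1 / s) * Real.exp (k * (4 / s)) :=
            mul_le_mul e1 e3 (by positivity) (Real.exp_pos _).le
        _ = Real.exp ((4 * k + 1) / s) := by rw [← Real.exp_add]; congr 1; ring
        _ ≤ Real.exp (u / 8) := Real.exp_le_exp.2 a1
        _ ≤ 1 + 2 * (u / 8) := exp_le_of_le (by positivity) (by linarith)
        _ = _ := by ring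
    have g0 : 0 ≤ (((x : ℝ) + 1) - 2 ^ J₀) / x := by
      apply div_nonneg _ hx0.le
      have : (2 : ℝ) ^ J₀ ≤ 2 ^ J := pow_le_pow_right₀ (by norm_num) (by omega)
      linarith
    calc (((x : ℝ) + 1) - 2 ^ J₀) * ((1 + u / 4) * S / (J₀ * Real.log 2) ^ k) * l ^ k / x =
          ((((x : ℝ) + 1) - 2 ^ J₀) / x * (l ^ k / (J₀ * Real.log 2) ^ k)) * ((1 + u / 4) * S) := by
            field_simp
      _ ≤ ((1 + 1 / (s : ℝ)) * (1 + 4 / s) ^ k) * ((1 + u / 4) * S) := by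
          apply mul_le_mul_of_nonneg_right _ (by positivity)
          exact mul_le_mul g2 g1 (by positivity) (by positivity)
      _ ≤ _ := mul_le_mul_of_nonneg_right g3 (by positivity)
  have hMlo : (1 - u / 8) * ((1 - u / 8) * S) ≤ (((x : ℝ) + 1) - 2 ^ J₀) * ((1 - u / 8) * S / ((J + 1) * Real.log 2) ^ k) * l ^ k / x := by
    have g1 : 1 - k / (s : ℝ) ≤ l ^ k / ((J + 1) * Real.log 2) ^ k := by
      rw [← div_pow]
      have e1 : 1 - 1 / (s : ℝ) ≤ l / ((J + 1) * Real.log 2) := by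
        rw [le_div_iff₀ (by positivity)]
        refine le_trans ?_ hl_lo
        rw [← mul_assoc]
        apply mul_le_mul_of_nonneg_right _ hl2.le
        have e2 : (1 - 1 / (s : ℝ)) * (J + 1) = J + 1 - (J + 1) / s := by ring
        rw [e2]
        have e3 : 1 ≤ ((J : ℝ) + 1) / s := by
          rw [le_div_iff₀ hs0]
          have : (2 * s : ℝ) ≤ J := by exact_mod_cast h2s
          linarith
        linarith
      have e4 : 0 ≤ 1 - 1 / (s : ℝ) := by
        have : 1 / (s : ℝ) ≤ 1 := by rw [div_le_one hs0]; linarith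
        linarith
      have e5 : (1 - 1 / (s : ℝ)) ^ k ≤ (l / ((J + 1) * Real.log 2)) ^ k := pow_le_pow_left₀ e4 e1 k
      have e6 := one_add_mul_le_pow (show (-2 : ℝ) ≤ -(1 / (s : ℝ)) by linarith) k
      have e7 : 1 + (k : ℝ) * -(1 / (s : ℝ)) = 1 - k / s := by ring
      rw [e7, ← sub_eq_add_neg] at e6
      exact e6.trans e5
    have g2 : 1 - 1 / (s : ℝ) ≤ (((x : ℝ) + 1) - 2 ^ J₀) / x := by
      rw [le_div_iff₀ hx0]
      have e1 : (1 - 1 / (s : ℝ)) * x = x - x / s := by ring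
      rw [e1]
      have e2 : (2 : ℝ) ^ J₀ ≤ x / s := by
        rw [le_div_iff₀ hs0]
        have : (2 : ℝ) ^ J₀ * s ≤ 2 ^ J₀ * 2 ^ s := mul_le_mul_of_nonneg_left h2s' (by positivity)
        linarith
      linarith
    have g3 : 1 - u / 8 ≤ (1 - 1 / (s : ℝ)) * (1 - k / s) := by
      have e1 : (1 - 1 / (s : ℝ)) * (1 - k / s) = 1 - (k + 1) / s + 1 / s * (k / s) := by ring
      rw [e1]
      have e2 : ((k : ℝ) + 1) / s ≤ (4 * k + 1) / s := by
        apply div_le_div_of_nonneg_right _ hs0.le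
        linarith
      have e3 : 0 ≤ 1 / (s : ℝ) * (k / s) := by positivity
      linarith
    have g4 : 0 ≤ 1 - k / (s : ℝ) := by
      have e1 : (k : ℝ) / s ≤ (4 * k + 1) / s := by
        apply div_le_div_of_nonneg_right _ hs0.le
        linarith
      linarith
    calc (1 - u / 8) * ((1 - u / 8) * S) ≤ ((1 - 1 / (s : ℝ)) * (1 - k / s)) * ((1 - u / 8) * S) :=
          mul_le_mul_of_nonneg_right g3 (mul_nonneg (by linarith) hSpos.le)
      _ ≤ ((((x : ℝ) + 1) - 2 ^ J₀) / x * (l ^ k / ((J + 1) * Real.log 2) ^ k)) * ((1 - u / 8) * S) := by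
          apply mul_le_mul_of_nonneg_right _ (mul_nonneg (by linarith) hSpos.le)
          have e4 : 0 ≤ 1 - 1 / (s : ℝ) := by
            have : 1 / (s : ℝ) ≤ 1 := by rw [div_le_one hs0]; linarith
            linarith
          exact mul_le_mul g2 g1 g4 (e4.trans g2)
      _ = _ := by field_simp
  -- conclusion
  have hEl : ((J : ℝ) + 1) * (L + 2 * 2 ^ J₀) * l ^ k / x ≤ G := by
    refine le_trans ?_ hErr
    apply div_le_div_of_nonneg_right _ hx0.le
    apply mul_le_mul_of_nonneg_right _ hlk.le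
    have : (0 : ℝ) < 2 ^ J₀ := by positivity
    linarith
  have hup : (A + B) * l ^ k / x ≤ (1 + u / 4) * ((1 + u / 4) * S) + G := by
    have h1 : (A + B) * l ^ k / x ≤
        (2 ^ J₀ + ((((x : ℝ) + 1) - 2 ^ J₀) * ((1 + u / 4) * S / (J₀ * Real.log 2) ^ k) + (J + 1) * (L + 2 * 2 ^ J₀))) * l ^ k / x := by
      apply div_le_div_of_nonneg_right _ hx0.le
      apply mul_le_mul_of_nonneg_right _ hlk.le
      linarith [hB.2]
    have h2 : (2 ^ J₀ + ((((x : ℝ) + 1) - 2 ^ J₀) * ((1 + u / 4) * S / (J₀ * Real.log 2) ^ k) + (J + 1) * (L + 2 * 2 ^ J₀))) * l ^ k / x =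
      (((x : ℝ) + 1) - 2 ^ J₀) * ((1 + u / 4) * S / (J₀ * Real.log 2) ^ k) * l ^ k / x + (2 ^ J₀ + ((J : ℝ) + 1) * (L + 2 * 2 ^ J₀)) * l ^ k / x := by
      ring
    rw [h2] at h1
    linarith
  have hlow : (1 - u / 8) * ((1 - u / 8) * S) - G ≤ (A + B) * l ^ k / x := by
    have h1 : ((((x : ℝ) + 1) - 2 ^ J₀) * ((1 - u / 8) * S / ((J + 1) * Real.log 2) ^ k) - (J + 1) * (L + 2 * 2 ^ J₀)) * l ^ k / x ≤
        (A + B) * l ^ k / x := by
      apply div_le_div_of_nonneg_right _ hx0.le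
      apply mul_le_mul_of_nonneg_right _ hlk.le
      linarith [hB.1]
    have h2 : ((((x : ℝ) + 1) - 2 ^ J₀) * ((1 - u / 8) * S / ((J + 1) * Real.log 2) ^ k) - (J + 1) * (L + 2 * 2 ^ J₀)) * l ^ k / x =
      (((x : ℝ) + 1) - 2 ^ J₀) * ((1 - u / 8) * S / ((J + 1) * Real.log 2) ^ k) * l ^ k / x - ((J : ℝ) + 1) * (L + 2 * 2 ^ J₀) * l ^ k / x := by
      ring
    rw [h2] at h1
    linarith
  have hu2 : 0 ≤ u * (1 - u) := mul_nonneg hu0.le (by linarith)
  rw [abs_le]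
  constructor
  · have : (1 - u / 8) * ((1 - u / 8) * S) = S - u / 4 * S + u ^ 2 / 64 * S := by ring
    have h3 : 0 ≤ u ^ 2 / 64 * S := by positivity
    have h4 : 0 ≤ u * S := by positivity
    linarith
  · have : (1 + u / 4) * ((1 + u / 4) * S) = S + u / 2 * S + u ^ 2 / 16 * S := by ring
    have h3 : u ^ 2 / 16 * S ≤ u / 16 * S := by
      apply mul_le_mul_of_nonneg_right _ hSpos.le
      nlinarith
    have h4 : 0 ≤ u * S := by positivity
    linarith

/-- **the expected number of tuples**, with relative error `o((log log x)^-2)`, uniformly in the shifts up to a power of `log x` -/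
theorem expected (P : ℕ → Finset ℕ) (hP : ∀ j, ∀ p ∈ P j, p.Prime)
    (hW : Tendsto (fun j : ℕ => Real.log (∏ p ∈ P j, p : ℕ) / j) atTop (𝓝 0))
    (hy : ∀ᶠ j : ℕ in atTop, ∀ p : ℕ, p.Prime → (p : ℝ) ≤ Real.log j ^ 4 → p ∈ P j) (k C : ℕ) {ε : ℝ} (hε : 0 < ε) :
    ∀ᶠ x : ℕ in atTop, ∀ H : Finset ℕ, (∀ h ∈ H, (h : ℝ) ≤ Real.log x ^ C) → H.card = k → sing H ≠ 0 →
      |(∑ n ∈ Finset.range x, ∏ h ∈ H, rhoG P (n + 1 + h)) * Real.log x ^ k / x - sing H| ≤
        ε / (Real.log (Real.log x)) ^ 2 * sing H := by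
  obtain ⟨c, hc0, hc⟩ := sing_lower k
  obtain ⟨j₁, hj₁⟩ := eventually_atTop.1 (hW.eventually (gt_mem_nhds (show (0 : ℝ) < 1 / 8 by norm_num)))
  obtain ⟨j₂, hj₂⟩ := eventually_atTop.1 hy
  have hmain : ∀ᶠ J : ℕ in atTop, 16 ≤ J ∧ ε / (Real.log J) ^ 2 ≤ 1 ∧ ∀ x : ℕ, 2 ^ J ≤ x → x < 2 ^ (J + 1) → ∀ H : Finset ℕ, H ⊆ Finset.range ((J + 1) ^ C + 1) → H.card = k →
      c ≤ sing H → |(∑ n ∈ Finset.range x, ∏ h ∈ H, rhoG P (n + 1 + h)) * Real.log x ^ k / x - sing H| ≤ ε / (Real.log J) ^ 2 * sing H := by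
    have t1 : Tendsto (fun J : ℕ => ε / (Real.log J) ^ 2) atTop (𝓝 0) := by
      apply tendsto_const_nhds.div_atTop
      exact (tendsto_pow_atTop (by norm_num)).comp tendsto_log
    filter_upwards [t1.eventually (gt_mem_nhds one_pos), asy_log (4 * k + 1) (show 0 < ε / 8 by positivity) 0,
      asy_log 0 (show 0 < c * ε / 8 by positivity) (2 * (C + 1 + k)), asy_y k C (show 0 < ε / 8 by positivity),
      tendsto_sqrt_nat.eventually_ge_atTop 2, eventually_ge_atTop 16, eventually_ge_atTop (2 * (j₁ + j₂ + 1))] with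
      J h1 h2 h3 h4 h5 h6 h7
    obtain ⟨f1, f2, f3, f4⟩ := sqrt_facts J h5
    refine ⟨h6, h1.le, fun x hx hx' H hH hHk hS => ?_⟩
    have hlJ : 0 < Real.log (J : ℝ) := Real.log_pos (by
      have : (16 : ℝ) ≤ J := by exact_mod_cast h6
      linarith)
    obtain ⟨g1, g2, g3, g4, g5⟩ := h4 (J - Nat.sqrt J) (by omega)
    have hJ₀ : J - Nat.sqrt J + Nat.sqrt J = J := by omega
    refine det_J P hP k C J (Nat.sqrt J) (J - Nat.sqrt J) ⌊Real.log ((J - Nat.sqrt J : ℕ) : ℝ) ^ 4⌋₊ (u := ε / (Real.log J) ^ 2) (c := c)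
      (by positivity) h1.le hc0 h5 f1 f2 hJ₀ f3 ?_ h6 ?_ g1 g2 g3 ?_ ?_ ?_ ?_ x hx hx' H hH hHk hS
    · intro j hj1 hj2
      have e1 := hj₁ j (by omega)
      have e2 : (0 : ℝ) < j := by
        have : 0 < j := by omega
        exact_mod_cast this
      rw [div_lt_iff₀ e2] at e1
      linarith
    · intro j hj1 hj2 p hp hpy
      refine hj₂ j (by omega) p hp ?_
      have e1 : 0 ≤ Real.log ((J - Nat.sqrt J : ℕ) : ℝ) := Real.log_natCast_nonneg _
      have e2 : (p : ℝ) ≤ Real.log ((J - Nat.sqrt J : ℕ) : ℝ) ^ 4 := by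
        have e3 : (p : ℝ) ≤ ⌊Real.log ((J - Nat.sqrt J : ℕ) : ℝ) ^ 4⌋₊ := by exact_mod_cast hpy
        exact e3.trans (Nat.floor_le (by positivity))
      refine e2.trans (pow_le_pow_left₀ e1 ?_ 4)
      apply Real.log_le_log
      · have : 0 < J - Nat.sqrt J := by omega
        exact_mod_cast this
      · exact_mod_cast hj1
    · have := h2.1
      rw [div_div, mul_comm 8, ← div_div] at this
      exact this
    · have := h3.2
      refine this.trans (le_of_eq ?_)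
      ring
    · refine g4.trans (le_of_eq ?_)
      ring
    · refine g5.trans (le_of_eq ?_)
      ring
  have hlog2 : Tendsto (fun x : ℕ => Nat.log 2 x) atTop atTop := by
    rw [tendsto_atTop]
    intro b
    filter_upwards [eventually_ge_atTop (2 ^ b)] with n hn
    exact Nat.le_log_of_pow_le (by norm_num) hn
  filter_upwards [hlog2.eventually hmain, eventually_ge_atTop 1] with x hx hx1 H hH hHk hne
  obtain ⟨hJ16, hu1, hx⟩ := hx
  set J := Nat.log 2 x with hJ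
  have hx2 : 2 ^ J ≤ x := Nat.pow_log_le_self 2 (by omega)
  have hx3 : x < 2 ^ (J + 1) := Nat.lt_pow_succ_log_self (by norm_num) x
  have hxR : (2 : ℝ) ^ J ≤ x := by exact_mod_cast hx2
  have hxR' : (x : ℝ) ≤ 2 ^ (J + 1) := by exact_mod_cast hx3.le
  have hx0 : (0 : ℝ) < x := lt_of_lt_of_le (by positivity) hxR
  have hJR : (16 : ℝ) ≤ J := by exact_mod_cast hJ16
  have hl_up : Real.log x ≤ (J + 1) * Real.log 2 := by
    have := Real.log_le_log hx0 hxR'
    rw [Real.log_pow] at this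
    push_cast at this
    exact this
  have hl_lo : J * Real.log 2 ≤ Real.log x := by
    have := Real.log_le_log (by positivity) hxR
    rwa [Real.log_pow] at this
  have hl2' : (1 : ℝ) / 2 ≤ Real.log 2 := by linarith [Real.log_two_gt_d9]
  have hl2'' : Real.log 2 ≤ 7 / 10 := by linarith [Real.log_two_lt_d9]
  have hl_upJ : Real.log x ≤ J := by nlinarith
  have hl_lo8 : 8 ≤ Real.log x := by nlinarith
  have h1 : 0 < Real.log (Real.log x) := Real.log_pos (by linarith)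
  have h2 : Real.log (Real.log x) ≤ Real.log J := Real.log_le_log (by linarith) hl_upJ
  have hS := hc H hHk hne
  have h3 := hx x hx2 hx3 H (by
    intro h hh
    rw [Finset.mem_range]
    have h4 := hH h hh
    have h5 : Real.log x ^ C ≤ ((J : ℝ) + 1) ^ C := pow_le_pow_left₀ (by linarith) (by linarith) C
    have h6 : (h : ℝ) ≤ (((J + 1) ^ C : ℕ) : ℝ) := by push_cast; linarith
    have h7 : h ≤ (J + 1) ^ C := by exact_mod_cast h6
    omega) hHk hS
  refine h3.trans ?_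
  apply mul_le_mul_of_nonneg_right _ (hc0.le.trans hS)
  apply div_le_div_of_nonneg_left hε.le (by positivity)
  exact pow_le_pow_left₀ h1.le h2 2

end Pool.Agent.N732.GS
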