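import Mathlib
import Pool.Agent.N732.GS.Det

set_option autoImplicit false
set_option linter.unusedSectionVars false

/-! # Growing sieves: the law of the tuples -/

open MeasureTheory Filter Set
open scoped Topology ENNReal

namespace Pool.Agent.N732.GS

open Pool.Agent.R528.RM

variable {Ω : Type} {m0 : MeasurableSpace Ω} {μ : Measure Ω} [IsProbabilityMeasure μ]
  {ℱ : Filtration ℕ m0} {A : ℕ → Set Ω}

/-- from the natural form of the hypothesis to the profile -/
lemma dens_growing (P : ℕ → Finset ℕ) (hP : ∀ j, ∀ p ∈ P j, p.Prime)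
    (hW : Tendsto (fun j : ℕ => Real.log (∏ p ∈ P j, p : ℕ) / j) atTop (𝓝 0))
    (hcop : ∀ n, (∃ p ∈ P (Nat.log 2 n), p ∣ n) → A n = ∅)
    (η : ℝ → ℕ → ℝ)
    (hd : ∀ᵐ ω ∂μ, ∀ ε : ℝ, 0 < ε → ∀ᶠ n : ℕ in atTop, (∀ p ∈ P (Nat.log 2 (n + 1)), ¬ p ∣ n + 1) →
      |dens μ ℱ A n ω * Real.log ((n : ℝ) + 1) * ∏ p ∈ P (Nat.log 2 (n + 1)), (1 - 1 / (p : ℝ)) - 1| ≤ η ε n) :
    ∀ᵐ ω ∂μ, ∀ ε : ℝ, 0 < ε → ∀ᶠ n : ℕ in atTop,
      |dens μ ℱ A n ω - rhoG P (n + 1)| ≤ η ε n * rhoG P (n + 1) := by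
  have hcopr : ∀ j n, Nat.Coprime n (∏ p ∈ P j, p) ↔ ∀ p ∈ P j, ¬ p ∣ n := by
    intro j n
    rw [Nat.coprime_prod_right_iff]
    refine forall₂_congr fun p hp => ?_
    rw [Nat.coprime_comm]
    exact Nat.Prime.coprime_iff_not_dvd (hP j p hp)
  have hz : ∀ᵐ ω ∂μ, ∀ n, ¬ Nat.Coprime (n + 1) (∏ p ∈ P (Nat.log 2 (n + 1)), p) → dens μ ℱ A n ω = 0 := by
    rw [ae_all_iff]
    intro n
    by_cases h : Nat.Coprime (n + 1) (∏ p ∈ P (Nat.log 2 (n + 1)), p)
    · exact Eventually.of_forall fun ω h2 => absurd h h2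
    · have h1 : dens μ ℱ A n =ᵐ[μ] 0 := by
        unfold dens
        rw [hcop (n + 1) (by
          rw [hcopr] at h
          push Not at h
          exact h), indicator_empty]
        rw [show (fun _ : Ω => (0 : ℝ)) = 0 from rfl, condExp_zero]
      filter_upwards [h1] with ω hω _
      exact hω
  have hlog2 : Tendsto (fun n : ℕ => Nat.log 2 (n + 1)) atTop atTop := by
    rw [tendsto_atTop]
    intro b
    filter_upwards [eventually_ge_atTop (2 ^ b)] with n hn
    exact Nat.le_log_of_pow_le (by norm_num) (by omega)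
  have hcj := hlog2.eventually ((hW.eventually (gt_mem_nhds (show (0 : ℝ) < 1 / 8 by norm_num))).and (eventually_ge_atTop 8))
  filter_upwards [hz, hd] with ω hω1 hω2 ε hε
  filter_upwards [hω2 ε hε, hcj, eventually_gt_atTop 2] with n hn hn2 hn3
  set j := Nat.log 2 (n + 1) with hj
  have hWpos : 0 < ∏ p ∈ P j, p := Finset.prod_pos fun q hq => (hP j q hq).pos
  by_cases hcp : Nat.Coprime (n + 1) (∏ p ∈ P j, p)
  · have h4 := hn ((hcopr _ _).1 hcp)
    set c : ℝ := ((∏ p ∈ P j, p : ℕ) : ℝ) / Nat.totient (∏ p ∈ P j, p) with hc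
    have hcpos : 0 < c := div_pos (by exact_mod_cast hWpos) (by exact_mod_cast Nat.totient_pos.2 hWpos)
    have hprod : ∏ p ∈ P j, (1 - 1 / (p : ℝ)) = c⁻¹ := by
      rw [hc, totient_prod (P j) (hP j), ← Finset.prod_inv_distrib]
      exact Finset.prod_congr rfl fun p _ => (inv_inv _).symm
    have hj8 : (8 : ℝ) ≤ j := by exact_mod_cast hn2.2
    have hl2 : 0 < Real.log 2 := Real.log_pos (by norm_num)
    have hl2' : (1 : ℝ) / 2 ≤ Real.log 2 := by linarith [Real.log_two_gt_d9]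
    have hlogn : (j : ℝ) * Real.log 2 ≤ Real.log ((n : ℝ) + 1) := by
      have h5 : 2 ^ j ≤ n + 1 := Nat.pow_log_le_self 2 (by omega)
      have h6 : (2 : ℝ) ^ j ≤ (n : ℝ) + 1 := by exact_mod_cast h5
      have h7 := Real.log_le_log (by positivity) h6
      rwa [Real.log_pow] at h7
    have hcl : c ≤ Real.log ((n : ℝ) + 1) := by
      refine le_trans ?_ hlogn
      refine (ratio_le_log (P j) (hP j)).trans ?_
      have h1 := hn2.1
      rw [div_lt_iff₀ (by linarith)] at h1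
      have h2 : Real.log (∏ p ∈ P j, p : ℕ) / Real.log 2 ≤ (j : ℝ) / 4 := by
        rw [div_le_iff₀ hl2]
        have h3 : (j : ℝ) / 4 * (1 / 2) ≤ j / 4 * Real.log 2 := mul_le_mul_of_nonneg_left hl2' (by positivity)
        linarith
      nlinarith
    have hl : 0 < Real.log ((n : ℝ) + 1) := lt_of_lt_of_le hcpos hcl
    have e1 : rhoG P (n + 1) = c / Real.log ((n : ℝ) + 1) := by
      unfold rhoG rhoW
      rw [← hj, if_pos hcp, ← hc, Nat.cast_add, Nat.cast_one, min_eq_right]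
      rw [div_le_one hl]
      exact hcl
    rw [hprod] at h4
    have hρ0 : 0 < c / Real.log ((n : ℝ) + 1) := by positivity
    have e2 : dens μ ℱ A n ω - c / Real.log ((n : ℝ) + 1) =
        (dens μ ℱ A n ω * Real.log ((n : ℝ) + 1) * c⁻¹ - 1) * (c / Real.log ((n : ℝ) + 1)) := by
      field_simp
    rw [e1, e2, abs_mul, abs_of_pos hρ0]
    exact mul_le_mul_of_nonneg_right h4 hρ0.le
  · rw [hω1 n hcp]
    have e1 : rhoG P (n + 1) = 0 := by
      unfold rhoG rhoW
      rw [← hj, if_neg hcp]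
    rw [e1]
    simp

lemma transfer {T E lam S a b u c : ℝ} (hl : 0 ≤ lam) (hu0 : 0 < u) (hu1 : u ≤ 1) (hc : c ≤ S) (hc0 : 0 < c)
    (hE : |E * lam - S| ≤ u / 4 * S) (hT : |T - E| ≤ a + b * E) (ha : a * lam ≤ c * u / 8) (hb0 : 0 ≤ b) (hb : b ≤ u / 8) :
    |T * lam - S| ≤ u * S := by
  have hS : 0 < S := lt_of_lt_of_le hc0 hc
  have h1 : |T * lam - E * lam| ≤ (a + b * E) * lam := by
    rw [← sub_mul, abs_mul, abs_of_nonneg hl]
    exact mul_le_mul_of_nonneg_right hT hl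
  have h2 : E * lam ≤ (1 + u / 4) * S := by
    have := (abs_le.1 hE).2
    linarith
  have h3 : b * (E * lam) ≤ u / 8 * ((1 + u / 4) * S) := by
    calc b * (E * lam) ≤ b * ((1 + u / 4) * S) := mul_le_mul_of_nonneg_left h2 hb0
      _ ≤ _ := mul_le_mul_of_nonneg_right hb (by positivity)
  have h4 : a * lam ≤ u / 8 * S := by
    refine ha.trans ?_
    have := mul_le_mul_of_nonneg_right hc (show 0 ≤ u / 8 by positivity)
    linarith
  have h5 : |T * lam - S| ≤ |T * lam - E * lam| + |E * lam - S| := abs_sub_le _ _ _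
  have h6 : u / 8 * ((1 + u / 4) * S) ≤ u / 8 * (5 / 4 * S) := by
    apply mul_le_mul_of_nonneg_left _ (by positivity)
    apply mul_le_mul_of_nonneg_right _ hS.le
    linarith
  have h7 : 0 < u * S := by positivity
  nlinarith

/-- the noise is negligible, with a rate -/
lemma lamT_small (k : ℕ) {ε : ℝ} (hε : 0 < ε) : ∀ᶠ x : ℕ in atTop,
    k * (lamT 1 k x + (Nat.sqrt x : ℕ)) * (Real.log x ^ k / x) ≤ ε / (Real.log (Real.log x)) ^ 2 ∧
    4 * k * lamT 1 k x * (Real.log x ^ k / x) ≤ ε := by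
  have h1 : Tendsto (fun x : ℝ => 4 * k * (√(16 * k) + 1) * (Real.log x ^ ((k : ℝ) + 3) / x ^ (1 / 2 : ℝ))) atTop
      (𝓝 (4 * k * (√(16 * k) + 1) * 0)) :=
    ((isLittleO_log_rpow_rpow_atTop ((k : ℝ) + 3) (by norm_num : (0 : ℝ) < 1 / 2)).tendsto_div_nhds_zero).const_mul _
  rw [mul_zero] at h1
  have h2 := (h1.comp tendsto_natCast_atTop_atTop).eventually (gt_mem_nhds hε)
  filter_upwards [h2, tendsto_log.eventually_ge_atTop 3, eventually_ge_atTop 3] with x hx hx1 hx2
  simp only [Function.comp_apply] at hx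
  have hx0 : (0 : ℝ) < x := by
    have : (3 : ℝ) ≤ x := by exact_mod_cast hx2
    linarith
  have hxx : (1 : ℝ) ≤ x := by
    have : (3 : ℝ) ≤ x := by exact_mod_cast hx2
    linarith
  set l := Real.log x with hl
  have hl0 : 0 < l := by linarith
  set r : ℝ := (x : ℝ) ^ (1 / 2 : ℝ) with hr
  have hr0 : 0 < r := Real.rpow_pos_of_pos hx0 _
  have hrr : r * r = x := by
    rw [hr, ← Real.rpow_add hx0]
    norm_num
  have hrs : √(x : ℝ) = r := by rw [hr, Real.sqrt_eq_rpow]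
  have hlam : lamT 1 k x ≤ √(16 * k) * (r * l) := by
    unfold lamT
    have e0 : √(8 * ((1 : ℕ) + 1) * k * (x * l)) = √(16 * k) * √(x * l) := by
      rw [← Real.sqrt_mul (by positivity)]
      congr 1
      push_cast
      ring
    rw [e0]
    apply mul_le_mul_of_nonneg_left _ (Real.sqrt_nonneg _)
    rw [Real.sqrt_mul hx0.le, hrs]
    apply mul_le_mul_of_nonneg_left _ hr0.le
    rw [Real.sqrt_le_left hl0.le]
    nlinarith
  have hsq : ((Nat.sqrt x : ℕ) : ℝ) ≤ r := by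
    rw [← hrs]
    exact Real.nat_sqrt_le_real_sqrt
  have hk0 : (0 : ℝ) ≤ k := Nat.cast_nonneg k
  have hlk : Real.log x ^ ((k : ℝ) + 3) = l ^ k * l ^ 3 := by
    rw [Real.rpow_add hl0, Real.rpow_natCast]
    norm_num
  rw [hlk] at hx
  set K := √(16 * (k : ℝ)) with hK
  have hK0 : 0 ≤ K := Real.sqrt_nonneg _
  have hsum : k * (lamT 1 k x + (Nat.sqrt x : ℕ)) * (l ^ k / x) ≤ k * (K + 1) * (l ^ k * l) / r := by
    have h3 : lamT 1 k x + (Nat.sqrt x : ℕ) ≤ (K + 1) * (r * l) := by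
      have : r ≤ r * l := le_mul_of_one_le_right hr0.le (by linarith)
      nlinarith
    calc k * (lamT 1 k x + (Nat.sqrt x : ℕ)) * (l ^ k / x) ≤ k * ((K + 1) * (r * l)) * (l ^ k / x) := by
          apply mul_le_mul_of_nonneg_right _ (by positivity)
          exact mul_le_mul_of_nonneg_left h3 hk0
      _ = _ := by
        rw [← hrr]
        field_simp
  have hll : Real.log l ≤ l := by
    have := Real.log_le_sub_one_of_pos hl0
    linarith
  have hll0 : 0 < Real.log l := Real.log_pos (by linarith)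
  have hx' : 4 * (k : ℝ) * (K + 1) * (l ^ k * l ^ 3) / r < ε := by
    rw [mul_div_assoc]
    exact hx
  constructor
  · refine hsum.trans ?_
    rw [le_div_iff₀ (by positivity)]
    have h4 : Real.log l ^ 2 ≤ l ^ 2 := pow_le_pow_left₀ hll0.le hll 2
    calc k * (K + 1) * (l ^ k * l) / r * Real.log l ^ 2 ≤ k * (K + 1) * (l ^ k * l) / r * l ^ 2 :=
          mul_le_mul_of_nonneg_left h4 (by positivity)
      _ = (k * (K + 1) * (l ^ k * l ^ 3) / r) := by ring
      _ ≤ 4 * (k : ℝ) * (K + 1) * (l ^ k * l ^ 3) / r := by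
        apply div_le_div_of_nonneg_right _ hr0.le
        have : 0 ≤ (k : ℝ) * (K + 1) * (l ^ k * l ^ 3) := by positivity
        linarith
      _ ≤ ε := hx'.le
  · have h3 : 0 ≤ lamT 1 k x := Real.sqrt_nonneg _
    calc 4 * k * lamT 1 k x * (l ^ k / x) ≤ 4 * k * (K * (r * l)) * (l ^ k / x) := by
          apply mul_le_mul_of_nonneg_right _ (by positivity)
          exact mul_le_mul_of_nonneg_left hlam (by positivity)
      _ = 4 * k * K * (l ^ k * l) / r := by
        rw [← hrr]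
        field_simp
      _ ≤ 4 * (k : ℝ) * (K + 1) * (l ^ k * l ^ 3) / r := by
        apply div_le_div_of_nonneg_right _ hr0.le
        have h5 : l ≤ l ^ 3 := le_self_pow₀ (by linarith) (by norm_num)
        apply mul_le_mul _ _ (by positivity) (by positivity)
        · exact mul_le_mul_of_nonneg_left (by linarith) (by positivity)
        · exact mul_le_mul_of_nonneg_left h5 (by positivity)
      _ ≤ ε := hx'.le

/-- **uniform law**, no rate -/
theorem tuples_asymp (hA : ∀ n, MeasurableSet[ℱ n] (A n)) (P : ℕ → Finset ℕ) (hP : ∀ j, ∀ p ∈ P j, p.Prime)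
    (hW : Tendsto (fun j : ℕ => Real.log (∏ p ∈ P j, p : ℕ) / j) atTop (𝓝 0))
    (hy : ∀ᶠ j : ℕ in atTop, ∀ p : ℕ, p.Prime → (p : ℝ) ≤ Real.log j ^ 4 → p ∈ P j)
    (hd : ∀ᵐ ω ∂μ, ∀ ε : ℝ, 0 < ε → ∀ᶠ n : ℕ in atTop, |dens μ ℱ A n ω - rhoG P (n + 1)| ≤ ε * rhoG P (n + 1)) :
    ∀ᵐ ω ∂μ, ∀ k C : ℕ, ∀ ε : ℝ, 0 < ε → ∀ᶠ x : ℕ in atTop, ∀ H : Finset ℕ, (∀ h ∈ H, (h : ℝ) ≤ Real.log x ^ C) → H.card = k →
      sing H ≠ 0 → |TN A (rhoG P) x H ∅ ω * (Real.log x ^ k / x) - sing H| ≤ ε * sing H := by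
  filter_upwards [tup_fixed (μ := μ) hA (rhoG P) (fun n => rhoG_01 P n) hd] with ω hω k C ε hε
  obtain ⟨c, hc0, hc⟩ := sing_lower k
  set u := min ε 1 with hu
  have hu0 : 0 < u := lt_min hε one_pos
  have hu1 : u ≤ 1 := min_le_right _ _
  have hlC : ∀ᶠ x : ℕ in atTop, Real.log (x : ℝ) ^ C ≤ x := by
    have h1 := (Real.isLittleO_pow_log_id_atTop (n := C)).def (show (0 : ℝ) < 1 by norm_num)
    filter_upwards [tendsto_natCast_atTop_atTop.eventually h1, tendsto_log.eventually_ge_atTop 0] with x hx hx2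
    rw [Real.norm_of_nonneg (by positivity), id, Real.norm_of_nonneg (Nat.cast_nonneg _), one_mul] at hx
    exact hx
  have hll : ∀ᶠ x : ℕ in atTop, 1 ≤ Real.log (Real.log (x : ℝ)) :=
    (Real.tendsto_log_atTop.comp tendsto_log).eventually_ge_atTop 1
  filter_upwards [hω 1 k (u / 8) (by positivity), expected P hP hW hy k C (show 0 < u / 4 by positivity), hlC, hll,
    lamT_small k (show 0 < c * u / 8 by positivity), tendsto_log.eventually_ge_atTop 1] with x h1 h2 h3 h4 h5 h6 H hH hHk hne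
  have hS := hc H hHk hne
  have hSpos : 0 < sing H := lt_of_lt_of_le hc0 hS
  have hHr : H ⊆ Finset.range (x ^ 1 + 1) := by
    intro h hh
    rw [Finset.mem_range, pow_one]
    have : (h : ℝ) ≤ x := (hH h hh).trans h3
    have : h ≤ x := by exact_mod_cast this
    omega
  have h7 := h1 H hHr hHk
  have h8 := h2 H hH hHk hne
  have hET : TN A (rhoG P) x ∅ H ω = ∑ n ∈ Finset.range x, ∏ h ∈ H, rhoG P (n + 1 + h) := by
    unfold TN
    simp
  rw [← hET, mul_div_assoc] at h8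
  have h9 : u / 4 / (Real.log (Real.log x)) ^ 2 * sing H ≤ u / 4 * sing H := by
    apply mul_le_mul_of_nonneg_right _ hSpos.le
    apply div_le_self (by positivity)
    exact one_le_pow₀ h4
  refine (transfer (T := TN A (rhoG P) x H ∅ ω) (E := TN A (rhoG P) x ∅ H ω) (lam := Real.log x ^ k / x) (S := sing H)
    (a := 4 * k * lamT 1 k x) (b := u / 8) (u := u) (c := c) (by positivity) hu0 hu1 hS hc0 (h8.trans h9) h7 h5.2 (by positivity) le_rfl).trans ?_
  exact mul_le_mul_of_nonneg_right (min_le_left _ _) hSpos.le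

lemma pow_bounds (k : ℕ) {e : ℝ} (h0 : 0 ≤ e) (h1 : k * e ≤ 1) :
    (1 + e) ^ k ≤ 1 + 2 * (k * e) ∧ 1 - k * e ≤ (1 - e) ^ k ∨ 1 < e := by
  rcases le_or_gt e 1 with he | he
  · left
    constructor
    · have e1 : (1 + e) ^ k ≤ Real.exp (k * e) := by
        rw [Real.exp_nat_mul]
        have := Real.add_one_le_exp e
        exact pow_le_pow_left₀ (by linarith) (by linarith) k
      exact e1.trans (exp_le_of_le (by positivity) h1)
    · have e1 := one_add_mul_le_pow (show (-2 : ℝ) ≤ -e by linarith) k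
      have e2 : 1 + (k : ℝ) * -e = 1 - k * e := by ring
      rw [e2, ← sub_eq_add_neg] at e1
      exact e1
  · right; exact he

/-- **uniform law** with relative error `o((log log x)^-2)` -/
theorem tuples_rate (hA : ∀ n, MeasurableSet[ℱ n] (A n)) (P : ℕ → Finset ℕ) (hP : ∀ j, ∀ p ∈ P j, p.Prime)
    (hW : Tendsto (fun j : ℕ => Real.log (∏ p ∈ P j, p : ℕ) / j) atTop (𝓝 0))
    (hy : ∀ᶠ j : ℕ in atTop, ∀ p : ℕ, p.Prime → (p : ℝ) ≤ Real.log j ^ 4 → p ∈ P j)
    (hd : ∀ᵐ ω ∂μ, ∀ ε : ℝ, 0 < ε → ∀ᶠ n : ℕ in atTop,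
      |dens μ ℱ A n ω - rhoG P (n + 1)| ≤ ε / (Real.log (Real.log n)) ^ 2 * rhoG P (n + 1)) :
    ∀ᵐ ω ∂μ, ∀ k C : ℕ, ∀ ε : ℝ, 0 < ε → ∀ᶠ x : ℕ in atTop, ∀ H : Finset ℕ, (∀ h ∈ H, (h : ℝ) ≤ Real.log x ^ C) → H.card = k →
      sing H ≠ 0 → |TN A (rhoG P) x H ∅ ω * (Real.log x ^ k / x) - sing H| ≤ ε / (Real.log (Real.log x)) ^ 2 * sing H := by
  have h01 : ∀ᵐ ω ∂μ, ∀ n, 0 ≤ dens μ ℱ A n ω ∧ dens μ ℱ A n ω ≤ 1 := ae_all_iff.2 fun n => dens01 hA n
  have herr := tup_errors (μ := μ) hA (rhoG P) (fun n => rhoG_01 P n) 1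
  filter_upwards [h01, herr, hd] with ω hω1 hω2 hω3 k C ε hε
  obtain ⟨c, hc0, hc⟩ := sing_lower k
  -- the rate
  set δ : ℝ := min ε 1 / (64 * (k + 1)) with hδ
  have hδ0 : 0 < δ := by
    have : 0 < min ε 1 := lt_min hε one_pos
    positivity
  obtain ⟨n₀, hn₀⟩ := eventually_atTop.1 (hω3 δ hδ0)
  have hlC : ∀ᶠ x : ℕ in atTop, Real.log (x : ℝ) ^ C ≤ x := by
    have h1 := (Real.isLittleO_pow_log_id_atTop (n := C)).def (show (0 : ℝ) < 1 by norm_num)
    filter_upwards [tendsto_natCast_atTop_atTop.eventually h1, tendsto_log.eventually_ge_atTop 0] with x hx hx2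
    rw [Real.norm_of_nonneg (by positivity), id, Real.norm_of_nonneg (Nat.cast_nonneg _), one_mul] at hx
    exact hx
  have hll : ∀ᶠ x : ℕ in atTop, 4 ≤ Real.log (Real.log (x : ℝ)) :=
    (Real.tendsto_log_atTop.comp tendsto_log).eventually_ge_atTop 4
  have hm : 0 < min ε 1 := lt_min hε one_pos
  filter_upwards [hω2, expected P hP hW hy k C (show 0 < min ε 1 / 4 by positivity), hlC, hll,
    lamT_small k (show 0 < c * min ε 1 / 32 by positivity), tendsto_log.eventually_ge_atTop 4,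
    tendsto_sqrt_nat.eventually_ge_atTop (n₀ + 3)] with x h1 h2 h3 h4 h5 h6 h7 H hH hHk hne
  set ll := Real.log (Real.log x) with hlld
  set u := min ε 1 / ll ^ 2 with hu
  have hll0 : 0 < ll := by linarith
  have hll1 : 1 ≤ ll ^ 2 := one_le_pow₀ (by linarith)
  have hu0 : 0 < u := by positivity
  have hu1 : u ≤ 1 := by
    rw [hu, div_le_one (by positivity)]
    exact (min_le_right _ _).trans hll1
  have hS := hc H hHk hne
  have hSpos : 0 < sing H := lt_of_lt_of_le hc0 hS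
  have hHr : H ⊆ Finset.range (x ^ 1 + 1) := by
    intro h hh
    rw [Finset.mem_range, pow_one]
    have : (h : ℝ) ≤ x := (hH h hh).trans h3
    have : h ≤ x := by exact_mod_cast this
    omega
  have h8 := h2 H hH hHk hne
  have hET : TN A (rhoG P) x ∅ H ω = ∑ n ∈ Finset.range x, ∏ h ∈ H, rhoG P (n + 1 + h) := by
    unfold TN
    simp
  rw [← hET, mul_div_assoc] at h8
  have h9 : min ε 1 / 4 / ll ^ 2 * sing H = u / 4 * sing H := by rw [hu]; ring
  rw [h9] at h8
  -- the steps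
  set N := Nat.sqrt x with hN
  set e : ℝ := 4 * δ / ll ^ 2 with he
  have he0 : 0 < e := by positivity
  have hk0 : (0 : ℝ) ≤ k := Nat.cast_nonneg k
  have hδk : δ * (64 * (k + 1)) = min ε 1 := by rw [hδ]; field_simp
  have hke : k * e ≤ u / 16 := by
    rw [he, hu, ← mul_div_assoc, div_div, div_le_div_iff₀ (by positivity) (by positivity)]
    have h10 : k * (4 * δ) * 16 ≤ min ε 1 := by
      rw [← hδk]
      nlinarith
    have := mul_le_mul_of_nonneg_right h10 (show 0 ≤ ll ^ 2 by positivity)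
    nlinarith
  have he1 : e ≤ 1 := by
    rw [he, div_le_one (by positivity)]
    have h10 : 4 * δ ≤ 1 := by
      have h11 : min ε 1 ≤ 1 := min_le_right _ _
      nlinarith
    linarith
  have hNn : ∀ n, N ≤ n → |dens μ ℱ A n ω - rhoG P (n + 1)| ≤ e * rhoG P (n + 1) := by
    intro n hn
    refine (hn₀ n (by omega)).trans ?_
    apply mul_le_mul_of_nonneg_right _ (rhoG_01 P _).1
    -- loglog n ≥ (1/2) loglog x
    have g1 : x < (N + 1) * (N + 1) := Nat.lt_succ_sqrt x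
    have g2 : (x : ℝ) ≤ (n : ℝ) ^ 3 := by
      have g3 : (N + 1) * (N + 1) ≤ n ^ 3 := by
        have g4 : 3 ≤ n := by omega
        have g5 : (N + 1) * (N + 1) ≤ (n + 1) * (n + 1) := Nat.mul_le_mul (by omega) (by omega)
        refine g5.trans ?_
        nlinarith [Nat.mul_le_mul g4 (Nat.mul_le_mul (le_refl n) (le_refl n)), Nat.mul_le_mul g4 (le_refl n)]
      have g6 : x ≤ n ^ 3 := by omega
      exact_mod_cast g6
    have hx0 : (0 : ℝ) < x := by
      by_contra hcon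
      have : x = 0 := by
        have : (x : ℝ) = 0 := le_antisymm (not_lt.1 hcon) (Nat.cast_nonneg _)
        exact_mod_cast this
      rw [this] at h6
      simp at h6
      linarith
    have g7 := Real.log_le_log hx0 g2
    rw [Real.log_pow] at g7
    push_cast at g7
    have hlx : 0 < Real.log (x : ℝ) := by linarith
    have g8 : Real.log x / 3 ≤ Real.log n := by linarith
    have g9 : Real.log (Real.log x / 3) ≤ Real.log (Real.log n) := Real.log_le_log (by positivity) g8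
    rw [Real.log_div hlx.ne' (by norm_num)] at g9
    have g10 : Real.log 3 ≤ 2 := by
      have : Real.log 3 ≤ 3 - 1 := Real.log_le_sub_one_of_pos (by norm_num)
      linarith
    have g11 : ll / 2 ≤ Real.log (Real.log n) := by linarith
    rw [he, div_le_div_iff₀ (by nlinarith) (by positivity)]
    have g12 : (ll / 2) ^ 2 ≤ Real.log (Real.log n) ^ 2 := pow_le_pow_left₀ (by positivity) g11 2
    nlinarith
  have hB := TN_bounds (μ := μ) (fun n => rhoG_01 P n) hω1 he0.le he1 hNn x H (lam := lamT 1 k x) (Real.sqrt_nonneg _)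
    (fun g hg => by have := (h1 H hHr g hg).le; rwa [hHk] at this) H ∅ (by simp) (by simp)
  rw [hHk] at hB
  have hE0 := TN_nonneg (A := A) (fun n => rhoG_01 P n) x ∅ H ω
  have hT0 := TN_nonneg (A := A) (fun n => rhoG_01 P n) x H ∅ ω
  set T := TN A (rhoG P) x H ∅ ω
  set E := TN A (rhoG P) x ∅ H ω
  set a₀ : ℝ := k * (lamT 1 k x + (N : ℕ)) with ha₀
  have ha₀0 : 0 ≤ a₀ := by
    have : 0 ≤ lamT 1 k x := Real.sqrt_nonneg _
    positivity
  have hpb : (1 + e) ^ k ≤ 1 + 2 * (k * e) ∧ 1 - k * e ≤ (1 - e) ^ k := by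
    rcases pow_bounds k he0.le (by linarith : k * e ≤ 1) with h | h
    · exact h
    · linarith
  have hTE : |T - E| ≤ 2 * a₀ + (u / 8) * E := by
    rw [abs_le]
    constructor
    · have g1 : (1 - k * e) * E ≤ (1 - e) ^ k * E := mul_le_mul_of_nonneg_right hpb.2 hE0
      have g2 : k * e * E ≤ u / 16 * E := mul_le_mul_of_nonneg_right hke hE0
      have g3 : 0 ≤ u / 16 * E := by positivity
      linarith [hB.1]
    · have g1 : (1 + e) ^ k * (E + a₀) ≤ (1 + 2 * (k * e)) * (E + a₀) := mul_le_mul_of_nonneg_right hpb.1 (by linarith)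
      have g2 : k * e * E ≤ u / 16 * E := mul_le_mul_of_nonneg_right hke hE0
      have g3 : 2 * (k * e) * a₀ ≤ 1 * a₀ := mul_le_mul_of_nonneg_right (by linarith) ha₀0
      linarith [hB.2]
  refine (transfer (T := T) (E := E) (lam := Real.log x ^ k / x) (S := sing H)
    (a := 2 * a₀) (b := u / 8) (u := u) (c := c) (by positivity) hu0 hu1 hS hc0 h8 hTE ?_ (by positivity) le_rfl).trans ?_
  · have := h5.1
    have g1 : c * min ε 1 / 32 / ll ^ 2 = c * u / 32 := by rw [hu]; ring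
    rw [g1] at this
    have g2 : 2 * a₀ * (Real.log x ^ k / x) = 2 * (a₀ * (Real.log x ^ k / x)) := by ring
    rw [g2]
    have g3 : 0 < c * u := by positivity
    linarith
  · apply mul_le_mul_of_nonneg_right _ hSpos.le
    rw [hu]
    exact div_le_div_of_nonneg_right (min_le_left _ _) (by positivity)

end Pool.Agent.N732.GS
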