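import Mathlib
import Pool.Agent.N732.GS.Prob

set_option autoImplicit false
set_option linter.unusedSectionVars false

/-! # Counting, reflection, pairs -/

open MeasureTheory Filter Set
open scoped Topology ENNReal

namespace Pool.Agent.N732.GS

open Pool.Agent.R528.RM

/-- the number of `n ≤ x` with `n + h ∈ S` for all `h ∈ H` -/
noncomputable def tupCount (S : Set ℕ) (H : Finset ℕ) (x : ℕ) : ℕ :=
  {n : ℕ | 1 ≤ n ∧ n ≤ x ∧ ∀ h ∈ H, n + h ∈ S}.ncard

lemma TN_eq {Ω : Type} (A : ℕ → Set Ω) (ρ : ℕ → ℝ) (x : ℕ) (H : Finset ℕ) (ω : Ω) :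
    TN A ρ x H ∅ ω = (tupCount {n : ℕ | ω ∈ A n} H x : ℝ) := by
  classical
  have h1 : {n : ℕ | 1 ≤ n ∧ n ≤ x ∧ ∀ h ∈ H, n + h ∈ {n : ℕ | ω ∈ A n}} =
      ↑(((Finset.range x).filter (fun n => ∀ h ∈ H, ω ∈ A (n + 1 + h))).image (· + 1)) := by
    ext n
    simp only [Set.mem_ofPred_eq, Finset.coe_image, Finset.coe_filter, Finset.mem_range, Set.mem_image]
    constructor
    · rintro ⟨a, b, c⟩
      refine ⟨n - 1, ⟨by omega, ?_⟩, by omega⟩
      rw [show n - 1 + 1 = n by omega]
      exact c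
    · rintro ⟨m, ⟨a, b⟩, rfl⟩
      exact ⟨by omega, by omega, b⟩
  unfold tupCount
  rw [h1, Set.ncard_coe_finset, Finset.card_image_of_injective _ (add_left_injective 1)]
  unfold TN
  rw [← Finset.sum_boole]
  refine Finset.sum_congr rfl fun n _ => ?_
  rw [Finset.prod_empty, mul_one]
  split_ifs with h
  · exact Finset.prod_eq_one fun a ha => by
      unfold In
      rw [Set.indicator_of_mem (h a ha)]
  · push Not at h
    obtain ⟨a, ha, hn⟩ := h
    refine Finset.prod_eq_zero ha ?_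
    unfold In
    rw [Set.indicator_of_notMem hn]

lemma occ_eq_zmod (H : Finset ℕ) {p : ℕ} (hp : p.Prime) : occ H p = (H.image (fun h : ℕ => (h : ZMod p))).card := by
  haveI : NeZero p := ⟨hp.ne_zero⟩
  unfold occ
  rw [← Finset.card_image_of_injective (H.image (fun h : ℕ => (h : ZMod p))) (ZMod.val_injective p), Finset.image_image]
  congr 1
  ext r
  simp [ZMod.val_natCast]

/-- reflection -/
lemma occ_reflect (H : Finset ℕ) (d : ℕ) (hd : ∀ h ∈ H, h ≤ d) {p : ℕ} (hp : p.Prime) :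
    occ (H.image (fun h => d - h)) p = occ H p := by
  rw [occ_eq_zmod _ hp, occ_eq_zmod _ hp, Finset.image_image]
  have h1 : H.image ((fun h : ℕ => (h : ZMod p)) ∘ fun h => d - h) = (H.image (fun h : ℕ => (h : ZMod p))).image (fun r => (d : ZMod p) - r) := by
    rw [Finset.image_image]
    refine Finset.image_congr fun h hh => ?_
    simp only [Function.comp_apply]
    rw [Nat.cast_sub (hd h hh)]
  rw [h1, Finset.card_image_of_injective]
  intro a b hab
  simpa using hab

lemma card_reflect (H : Finset ℕ) (d : ℕ) (hd : ∀ h ∈ H, h ≤ d) : (H.image (fun h => d - h)).card = H.card := by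
  apply Finset.card_image_of_injOn
  intro a ha b hb hab
  have := hd a ha
  have := hd b hb
  simp only at hab
  omega

lemma sing_reflect (H : Finset ℕ) (d : ℕ) (hd : ∀ h ∈ H, h ≤ d) : sing (H.image (fun h => d - h)) = sing H := by
  unfold sing lfac
  congr 1
  funext p
  rw [occ_reflect H d hd p.2, card_reflect H d hd]

/-- counting from the largest element -/
lemma count_shift (S : Set ℕ) (H : Finset ℕ) (d x : ℕ) (hd : ∀ h ∈ H, h ≤ d) :
    {m : ℕ | d < m ∧ m ≤ x ∧ ∀ h ∈ H, m - h ∈ S}.ncard ≤ tupCount S (H.image (fun h => d - h)) x ∧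
    tupCount S (H.image (fun h => d - h)) x ≤ {m : ℕ | d < m ∧ m ≤ x ∧ ∀ h ∈ H, m - h ∈ S}.ncard + d := by
  classical
  have hfin : ∀ K : Finset ℕ, {n : ℕ | 1 ≤ n ∧ n ≤ x ∧ ∀ h ∈ K, n + h ∈ S}.Finite := fun K =>
    (Set.finite_Iic x).subset fun n hn => hn.2.1
  have hfin2 : {m : ℕ | d < m ∧ m ≤ x ∧ ∀ h ∈ H, m - h ∈ S}.Finite := (Set.finite_Iic x).subset fun n hn => hn.2.1
  unfold tupCount
  constructor
  · refine Set.ncard_le_ncard_of_injOn (fun m => m - d) ?_ ?_ (hfin _)
    · rintro m ⟨h1, h2, h3⟩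
      refine ⟨by omega, by omega, ?_⟩
      intro h hh
      obtain ⟨g, hg, rfl⟩ := Finset.mem_image.1 hh
      have := hd g hg
      show m - d + (d - g) ∈ S
      rw [show m - d + (d - g) = m - g by omega]
      exact h3 g hg
    · rintro a ⟨ha, _⟩ b ⟨hb, _⟩ hab
      simp only at hab
      omega
  · have h1 : {n : ℕ | 1 ≤ n ∧ n ≤ x ∧ ∀ h ∈ H.image (fun h => d - h), n + h ∈ S} ⊆
        (fun m => m - d) '' {m : ℕ | d < m ∧ m ≤ x ∧ ∀ h ∈ H, m - h ∈ S} ∪ (Finset.Ioc (x - d) x : Finset ℕ) := by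
      rintro n ⟨h1, h2, h3⟩
      by_cases hn : n ≤ x - d
      · left
        refine ⟨n + d, ⟨by omega, by omega, ?_⟩, by simp⟩
        intro h hh
        have h4 := h3 (d - h) (Finset.mem_image_of_mem _ hh)
        have := hd h hh
        rw [show n + d - h = n + (d - h) by omega]
        exact h4
      · right
        rw [Finset.mem_coe, Finset.mem_Ioc]
        omega
    refine (Set.ncard_le_ncard h1 ((hfin2.image _).union (Finset.finite_toSet _))).trans ?_
    refine (Set.ncard_union_le _ _).trans ?_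
    refine add_le_add (Set.ncard_image_le hfin2) ?_
    rw [Set.ncard_coe_finset, Nat.card_Ioc]
    omega

/-- counting from the largest element does not change the asymptotics -/
lemma shift_law {S : Set ℕ} {H : Finset ℕ} {d x k : ℕ} (hk : H.card = k) (hd : ∀ h ∈ H, h ≤ d) {u c : ℝ} (hc0 : 0 < c) (hS : c ≤ sing H)
    (hu0 : 0 < u) (hx : 0 < Real.log (x : ℝ))
    (h1 : |(tupCount S (H.image (fun h => d - h)) x : ℝ) * (Real.log x ^ k / x) - sing (H.image (fun h => d - h))| ≤
      u / 2 * sing (H.image (fun h => d - h)))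
    (h2 : (d : ℝ) * (Real.log x ^ k / x) ≤ c * u / 2) :
    |({m : ℕ | d < m ∧ m ≤ x ∧ ∀ h ∈ H, m - h ∈ S}.ncard : ℝ) * Real.log x ^ k / (sing H * x) - 1| ≤ u := by
  rw [sing_reflect H d hd] at h1
  have hSp : 0 < sing H := lt_of_lt_of_le hc0 hS
  obtain ⟨g1, g2⟩ := count_shift S H d x hd
  set T := tupCount S (H.image (fun h => d - h)) x
  set T' := {m : ℕ | d < m ∧ m ≤ x ∧ ∀ h ∈ H, m - h ∈ S}.ncard
  have g1' : (T' : ℝ) ≤ T := by exact_mod_cast g1
  have g2' : (T : ℝ) ≤ T' + d := by exact_mod_cast g2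
  have hl : 0 ≤ Real.log (x : ℝ) ^ k / x := by positivity
  set lam := Real.log (x : ℝ) ^ k / x with hlam
  have e1 : (T' : ℝ) * Real.log x ^ k / (sing H * x) - 1 = (T' * lam - sing H) / sing H := by
    rw [sub_div, div_self hSp.ne', hlam]
    congr 1
    rw [mul_div_assoc', div_div, mul_comm (x : ℝ)]
  rw [e1, abs_div, abs_of_pos hSp, div_le_iff₀ hSp]
  have g3 := mul_le_mul_of_nonneg_right g1' hl
  have g4 := mul_le_mul_of_nonneg_right g2' hl
  have g5 : c * u / 2 ≤ u / 2 * sing H := by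
    have := mul_le_mul_of_nonneg_left hS (show 0 ≤ u / 2 by positivity)
    linarith
  have g6 := abs_le.1 h1
  rw [abs_le]
  have g7 : 0 ≤ u / 2 * sing H := by positivity
  constructor
  · nlinarith [g6.1]
  · nlinarith [g6.2]

/-- powers of `log x` are negligible -/
lemma log_small (m : ℕ) {ε : ℝ} (hε : 0 < ε) : ∀ᶠ x : ℕ in atTop, Real.log (x : ℝ) ^ m / x ≤ ε / (Real.log (Real.log x)) ^ 2 := by
  have h1 := (Real.isLittleO_pow_log_id_atTop (n := m + 2)).def hε
  filter_upwards [tendsto_natCast_atTop_atTop.eventually h1, tendsto_log.eventually_ge_atTop 3, eventually_ge_atTop 1] with x hx hx2 hx3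
  have hx0 : (0 : ℝ) < x := by exact_mod_cast hx3
  rw [Real.norm_of_nonneg (by positivity), id, Real.norm_of_nonneg hx0.le] at hx
  set l := Real.log (x : ℝ)
  have hl0 : 0 < l := by linarith
  have hll : Real.log l ≤ l := by
    have := Real.log_le_sub_one_of_pos hl0
    linarith
  have hll0 : 0 < Real.log l := Real.log_pos (by linarith)
  have h4 : Real.log l ^ 2 ≤ l ^ 2 := pow_le_pow_left₀ hll0.le hll 2
  rw [div_le_div_iff₀ hx0 (by positivity)]
  calc l ^ m * Real.log l ^ 2 ≤ l ^ m * l ^ 2 := mul_le_mul_of_nonneg_left h4 (by positivity)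
    _ = l ^ (m + 2) := by ring
    _ ≤ _ := hx

end Pool.Agent.N732.GS
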