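import Mathlib
import Pool.Agent.N732.GS.Count

set_option autoImplicit false
set_option linter.unusedSectionVars false

/-! # The singular series of a pair -/

open MeasureTheory Filter Set
open scoped Topology ENNReal

namespace Pool.Agent.N732.GS

open Pool.Agent.R528.RM

/-- admissible sets have a positive singular series -/
lemma sing_pos_of (H : Finset ℕ) (h : ∀ p : ℕ, p.Prime → occ H p ≠ p) : 0 < sing H := by
  classical
  set k := H.card with hk
  set y : ℕ := 4 * k ^ 2 + 2 * k + 1 with hy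
  set P : Finset ℕ := (Finset.range (y + 1)).filter Nat.Prime with hPdef
  have hP : ∀ p ∈ P, p.Prime := fun p hp => (Finset.mem_filter.1 hp).2
  have hPy : ∀ p : ℕ, p.Prime → p ≤ y → p ∈ P := fun p hp hpy =>
    Finset.mem_filter.2 ⟨Finset.mem_range.2 (by omega), hp⟩
  have h1 := sing_bounds H (y := y) (by omega) (by rw [hy]; nlinarith) (by omega) P hP hPy
  have h2 : 0 < singH P H := by
    refine Finset.prod_pos fun p hp => ?_
    have hp0 : (0 : ℝ) < p := by exact_mod_cast (hP p hp).pos
    apply div_pos _ (den_pos (hP p hp) _)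
    have h3 : occ H p < p := lt_of_le_of_ne (occ_le H (hP p hp).pos) (h p (hP p hp))
    have h4 : (occ H p : ℝ) / p < 1 := by
      rw [div_lt_one hp0]
      exact_mod_cast h3
    linarith
  have h4 : (1 : ℝ) / 2 ≤ 1 - 2 * (k : ℝ) ^ 2 / y := by
    have hy0 : (0 : ℝ) < y := by rw [hy]; positivity
    rw [le_sub_iff_add_le, ← le_sub_iff_add_le', div_le_iff₀ hy0]
    have : (y : ℝ) = 4 * k ^ 2 + 2 * k + 1 := by rw [hy]; push_cast; ring
    rw [this]
    have : (0 : ℝ) ≤ k := Nat.cast_nonneg k
    nlinarith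
  have h5 : 0 < (1 - 2 * (k : ℝ) ^ 2 / y) * singH P H := by
    apply mul_pos _ h2
    linarith
  exact lt_of_lt_of_le h5 h1.1

lemma pair_card {d : ℕ} (hd : 0 < d) : ({0, d} : Finset ℕ).card = 2 := by
  rw [Finset.card_insert_of_notMem, Finset.card_singleton]
  simp; omega

lemma occ_pair {d : ℕ} (p : ℕ) : occ {0, d} p = if p ∣ d then 1 else 2 := by
  unfold occ
  rw [Finset.image_insert, Finset.image_singleton]
  split_ifs with h
  · have : d % p = 0 := Nat.mod_eq_zero_of_dvd h
    simp [this]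
  · have : d % p ≠ 0 := fun h2 => h (Nat.dvd_of_mod_eq_zero h2)
    rw [Finset.card_insert_of_notMem, Finset.card_singleton]
    simp only [Nat.zero_mod, Finset.mem_singleton]
    exact fun h2 => this h2.symm

lemma sing_pair_pos {d : ℕ} (he : Even d) : 0 < sing {0, d} := by
  apply sing_pos_of
  intro p hp h
  rw [occ_pair] at h
  split_ifs at h with h1
  · exact hp.one_lt.ne' h.symm
  · rw [← h] at h1
    exact h1 he.two_dvd

lemma sing_pair {d : ℕ} (hd : 0 < d) (he : Even d) :
    sing {0, d} = 2 * (∏' p : {p : ℕ // p.Prime ∧ 2 < p}, (1 - 1 / (((p.1 : ℕ) : ℝ) - 1) ^ 2)) *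
      (∏ p ∈ d.primeFactors.filter (fun p : ℕ => 2 < p), (((p : ℝ) - 1) / ((p : ℝ) - 2))) := by
  classical
  set H : Finset ℕ := {0, d} with hH
  have hk : H.card = 2 := pair_card hd
  set F := d.primeFactors.filter (fun p : ℕ => 2 < p) with hF
  set b : ℕ → ℝ := fun n => if n = 2 then 1 / 2 else if n ∈ F then ((n : ℝ) - 2) / ((n : ℝ) - 1) else 1 with hb
  have h1 : HasProd (fun p : Nat.Primes => lfac H p) (sing H) := (lfac_multipliable H).hasProd
  have h2 : HasProd (Set.mulIndicator {p : ℕ | p.Prime} (lfac H)) (sing H) := by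
    rw [← hasProd_subtype_iff_mulIndicator]
    exact h1
  have h3 : HasProd b (∏ n ∈ insert 2 F, b n) := by
    apply hasProd_prod_of_ne_finset_one
    intro n hn
    rw [Finset.mem_insert, not_or] at hn
    simp only [hb]
    rw [if_neg hn.1, if_neg hn.2]
  have h4 := h2.mul h3
  have h5 : (fun n => Set.mulIndicator {p : ℕ | p.Prime} (lfac H) n * b n) =
      Set.mulIndicator {p : ℕ | p.Prime ∧ 2 < p} (fun n : ℕ => 1 - 1 / ((n : ℝ) - 1) ^ 2) := by
    funext n
    by_cases hn : n.Prime
    · rw [Set.mulIndicator_of_mem (show n ∈ {p : ℕ | p.Prime} from hn)]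
      have hn2 : (2 : ℝ) ≤ n := by exact_mod_cast hn.two_le
      rcases Nat.lt_or_ge 2 n with h6 | h6
      · rw [Set.mulIndicator_of_mem (show n ∈ {p : ℕ | p.Prime ∧ 2 < p} from ⟨hn, h6⟩)]
        have h7 : (3 : ℝ) ≤ n := by exact_mod_cast h6
        have e0 : (n : ℝ) ≠ 0 := by linarith
        have e1 : (n : ℝ) - 1 ≠ 0 := by linarith
        have e2 : 1 - 1 / (n : ℝ) ≠ 0 := by
          have : 1 - 1 / (n : ℝ) = ((n : ℝ) - 1) / n := by field_simp
          rw [this]
          exact div_ne_zero e1 e0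
        simp only [hb]
        rw [if_neg (by omega)]
        unfold lfac
        rw [hk, hH, occ_pair]
        by_cases hnd : n ∣ d
        · rw [if_pos hnd, if_pos (by
            rw [hF, Finset.mem_filter, Nat.mem_primeFactors]
            exact ⟨⟨hn, hnd, hd.ne'⟩, h6⟩)]
          push_cast
          field_simp
          ring
        · rw [if_neg hnd, if_neg (by
            rw [hF, Finset.mem_filter, Nat.mem_primeFactors]
            exact fun h => hnd h.1.2.1)]
          push_cast
          field_simp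
          ring
      · have h7 : n = 2 := le_antisymm h6 hn.two_le
        subst h7
        rw [Set.mulIndicator_of_notMem (by
          rintro ⟨_, h⟩
          exact lt_irrefl _ h)]
        simp only [hb, if_true]
        unfold lfac
        rw [hk, hH, occ_pair, if_pos he.two_dvd]
        norm_num
    · rw [Set.mulIndicator_of_notMem (show n ∉ {p : ℕ | p.Prime} from hn),
        Set.mulIndicator_of_notMem (show n ∉ {p : ℕ | p.Prime ∧ 2 < p} from fun h => hn h.1), one_mul]
      simp only [hb]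
      rw [if_neg (by rintro rfl; exact hn Nat.prime_two), if_neg (by
        rw [hF, Finset.mem_filter, Nat.mem_primeFactors]
        exact fun h => hn h.1.1)]
  rw [h5, ← hasProd_subtype_iff_mulIndicator] at h4
  have h6 : ∏' p : {p : ℕ // p.Prime ∧ 2 < p}, (1 - 1 / (((p.1 : ℕ) : ℝ) - 1) ^ 2) = sing H * ∏ n ∈ insert 2 F, b n := h4.tprod_eq
  have h2F : 2 ∉ F := by
    rw [hF, Finset.mem_filter]
    exact fun h => lt_irrefl _ h.2
  have h7 : ∏ n ∈ insert 2 F, b n = 1 / 2 * ∏ p ∈ F, (((p : ℝ) - 2) / ((p : ℝ) - 1)) := by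
    rw [Finset.prod_insert h2F]
    congr 1
    refine Finset.prod_congr rfl fun p hp => ?_
    simp only [hb]
    rw [if_neg (by rintro rfl; exact h2F hp), if_pos hp]
  have h8 : (∏ p ∈ F, (((p : ℝ) - 2) / ((p : ℝ) - 1))) * ∏ p ∈ F, (((p : ℝ) - 1) / ((p : ℝ) - 2)) = 1 := by
    rw [← Finset.prod_mul_distrib]
    refine Finset.prod_eq_one fun p hp => ?_
    have h9 : 2 < p := by
      rw [hF, Finset.mem_filter] at hp
      exact hp.2
    have h10 : (3 : ℝ) ≤ p := by exact_mod_cast h9
    have e1 : (p : ℝ) - 1 ≠ 0 := by linarith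
    have e2 : (p : ℝ) - 2 ≠ 0 := by linarith
    field_simp
  rw [h6, h7]
  calc sing H = sing H * 1 := (mul_one _).symm
    _ = sing H * ((∏ p ∈ F, (((p : ℝ) - 2) / ((p : ℝ) - 1))) * ∏ p ∈ F, (((p : ℝ) - 1) / ((p : ℝ) - 2))) := by rw [h8]
    _ = _ := by ring

end Pool.Agent.N732.GS
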